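import Mathlib

/-!
Coprime squarefree numbers congruent to `1` modulo `M` with logarithms in arithmetic progression.
-/

namespace W92892cR

private theorem Letters_p : ∃ p : ℕ → ℕ, (∀ j, (p j).Prime) ∧ (∀ j, 2 ^ j < p j) ∧
    (∀ j, p j ≤ 2 ^ (j + 1)) := by
  have h : ∀ j : ℕ, ∃ p, Nat.Prime p ∧ 2 ^ j < p ∧ p ≤ 2 ^ (j + 1) := by
    intro j
    obtain ⟨p, h1, h2, h3⟩ := Nat.exists_prime_lt_and_le_two_mul (2 ^ j) (by positivity)
    exact ⟨p, h1, h2, by rw [pow_succ]; linarith⟩
  choose p h1 h2 h3 using h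
  exact ⟨p, h1, h2, h3⟩

theorem exists_letters (M : ℕ) (hM : 1 ≤ M) : ∃ (m : ℕ → ℕ) (c : ℝ) (w : ℕ), 0 < c ∧
    (∀ ν, 1 ≤ ν → Squarefree (m ν) ∧ m ν ≡ 1 [MOD M] ∧ 1 < m ν ∧ (m ν).primeFactors.card ≤ w) ∧
    (∀ μ ν, 1 ≤ μ → 1 ≤ ν → μ ≠ ν → Nat.Coprime (m μ) (m ν)) ∧
    ∀ ν, 1 ≤ ν → c * ν ≤ Real.log (m ν) ∧ Real.log (m ν) ≤ c * (ν + 1) := by
  classical
  obtain ⟨p, hp, hlow, hup⟩ := Letters_p
  have hmono : StrictMono p := by
    refine strictMono_nat_of_lt_succ fun j => ?_
    exact (hup j).trans_lt (hlow (j + 1))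
  set w := Nat.totient M with hw
  have hw1 : 1 ≤ w := Nat.totient_pos.2 hM
  set K := M * w with hK
  have hKM : M ≤ K := by
    rw [hK]
    exact Nat.le_mul_of_pos_right M hw1
  have hK1 : 1 ≤ K := hM.trans hKM
  have hS : ∀ ν : ℕ, ∃ (S : Finset ℕ) (r : ℕ), S ⊆ Finset.Ico (K * ν) (K * (ν + 1)) ∧ S.card = w ∧
      ∀ j ∈ S, p j % M = r := by
    intro ν
    have h1 := Finset.exists_le_card_fiber_of_mul_le_card_of_maps_to
      (s := Finset.Ico (K * ν) (K * (ν + 1))) (t := Finset.range M) (f := fun j => p j % M) (n := w)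
      (fun j _ => Finset.mem_range.2 (Nat.mod_lt _ hM)) ⟨0, Finset.mem_range.2 hM⟩ (by
        rw [Finset.card_range, Nat.card_Ico]
        have : K * (ν + 1) - K * ν = K := by
          rw [mul_add, mul_one]
          omega
        rw [this])
    obtain ⟨r, -, hr⟩ := h1
    obtain ⟨S, hS1, hS2⟩ := Finset.exists_subset_card_eq hr
    refine ⟨S, r, hS1.trans (Finset.filter_subset _ _), hS2, ?_⟩
    intro j hj
    exact (Finset.mem_filter.1 (hS1 hj)).2
  choose S r hS1 hS2 hS3 using hS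
  have hlog2 : 0 < Real.log 2 := Real.log_pos one_lt_two
  have hcop : ∀ i j : ℕ, i ≠ j → Nat.Coprime (p i) (p j) := by
    intro i j hij
    exact (Nat.coprime_primes (hp i) (hp j)).2 fun h => hij (hmono.injective h)
  refine ⟨fun ν => ∏ j ∈ S ν, p j, w * K * Real.log 2, w, ?_, ?_, ?_, ?_⟩
  · have h1 : (0 : ℝ) < w := by exact_mod_cast hw1
    have h2 : (0 : ℝ) < K := by exact_mod_cast hK1
    positivity
  · intro ν hν
    have hne : (S ν).Nonempty := by
      rw [← Finset.card_pos, hS2]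
      exact hw1
    obtain ⟨j0, hj0⟩ := hne
    refine ⟨?_, ?_, ?_, ?_⟩
    · refine Finset.squarefree_prod_of_pairwise_isCoprime (fun i _ j _ hij => ?_)
        fun j _ => (hp j).squarefree
      show IsRelPrime (p i) (p j)
      rw [← Nat.coprime_iff_isRelPrime]
      exact hcop i j hij
    · have h1 : ∏ j ∈ S ν, p j ≡ ∏ _j ∈ S ν, p j0 [MOD M] := by
        refine Nat.ModEq.prod fun j hj => ?_
        show p j % M = p j0 % M
        rw [hS3 ν j hj, hS3 ν j0 hj0]
      refine h1.trans ?_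
      rw [Finset.prod_const, hS2, hw]
      apply Nat.ModEq.pow_totient
      rw [Nat.coprime_comm]
      apply Nat.Coprime.symm
      refine (Nat.Prime.coprime_iff_not_dvd (hp j0)).2 fun hd => ?_
      have h2 := Nat.le_of_dvd hM hd
      have h3 := hlow j0
      have h4 : K * ν ≤ j0 := (Finset.mem_Ico.1 (hS1 ν hj0)).1
      have h5 : K ≤ j0 := (Nat.le_mul_of_pos_right K hν).trans h4
      have h6 : j0 < 2 ^ j0 := Nat.lt_two_pow_self
      omega
    · have h1 : p j0 ≤ ∏ j ∈ S ν, p j := by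
        apply Nat.le_of_dvd
        · exact Finset.prod_pos fun j _ => (hp j).pos
        · exact Finset.dvd_prod_of_mem p hj0
      exact (hp j0).one_lt.trans_le h1
    · have h1 : ∏ j ∈ S ν, p j = ∏ q ∈ (S ν).image p, q := by
        rw [Finset.prod_image (fun i _ j _ h => hmono.injective h)]
      show (∏ j ∈ S ν, p j).primeFactors.card ≤ w
      rw [h1, Nat.primeFactors_prod, ← hS2 ν]
      · exact Finset.card_image_le
      · intro q hq
        obtain ⟨j, -, rfl⟩ := Finset.mem_image.1 hq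
        exact hp j
  · intro μ ν _ _ hne
    refine Nat.Coprime.prod_left fun i hi => Nat.Coprime.prod_right fun j hj => ?_
    apply hcop
    rintro rfl
    have h1 := Finset.mem_Ico.1 (hS1 μ hi)
    have h2 := Finset.mem_Ico.1 (hS1 ν hj)
    rcases lt_or_gt_of_ne hne with h | h
    · have : K * (μ + 1) ≤ K * ν := Nat.mul_le_mul_left K h
      omega
    · have : K * (ν + 1) ≤ K * μ := Nat.mul_le_mul_left K h
      omega
  · intro ν hν
    have hpos : ∀ j ∈ S ν, (0 : ℝ) < p j := fun j _ => by exact_mod_cast (hp j).pos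
    have hl : Real.log ((∏ j ∈ S ν, p j : ℕ) : ℝ) = ∑ j ∈ S ν, Real.log (p j) := by
      rw [Nat.cast_prod, Real.log_prod]
      intro j hj
      exact (hpos j hj).ne'
    show w * K * Real.log 2 * ν ≤ Real.log ((∏ j ∈ S ν, p j : ℕ) : ℝ) ∧
      Real.log ((∏ j ∈ S ν, p j : ℕ) : ℝ) ≤ w * K * Real.log 2 * (ν + 1)
    rw [hl]
    constructor
    · have h1 : ∀ j ∈ S ν, (K * ν : ℝ) * Real.log 2 ≤ Real.log (p j) := by
        intro j hj
        have h2 := Finset.mem_Ico.1 (hS1 ν hj)
        have h3 : ((K * ν : ℕ) : ℝ) * Real.log 2 ≤ Real.log (p j) := by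
          rw [← Real.log_pow]
          apply Real.log_le_log (by positivity)
          have h4 : 2 ^ (K * ν) ≤ p j :=
            (Nat.pow_le_pow_right (by norm_num) h2.1).trans (hlow j).le
          exact_mod_cast h4
        push_cast at h3
        exact h3
      have h2 := Finset.card_nsmul_le_sum (S ν) (fun j => Real.log (p j)) _ h1
      rw [hS2, nsmul_eq_mul] at h2
      calc w * K * Real.log 2 * ν = w * ((K * ν : ℝ) * Real.log 2) := by ring
        _ ≤ _ := h2
    · have h1 : ∀ j ∈ S ν, Real.log (p j) ≤ (K * (ν + 1) : ℝ) * Real.log 2 := by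
        intro j hj
        have h2 := Finset.mem_Ico.1 (hS1 ν hj)
        have h3 : Real.log (p j) ≤ ((K * (ν + 1) : ℕ) : ℝ) * Real.log 2 := by
          rw [← Real.log_pow]
          apply Real.log_le_log (hpos j hj)
          have h4 : p j ≤ 2 ^ (K * (ν + 1)) :=
            (hup j).trans (Nat.pow_le_pow_right (by norm_num) h2.2)
          exact_mod_cast h4
        push_cast at h3
        exact h3
      have h2 := Finset.sum_le_card_nsmul (S ν) (fun j => Real.log (p j)) _ h1
      rw [hS2, nsmul_eq_mul] at h2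
      calc _ ≤ w * ((K * (ν + 1) : ℝ) * Real.log 2) := h2
        _ = w * K * Real.log 2 * (ν + 1) := by ring

end W92892cR
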