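import Pool.Agent.W_92892c_h14r.Final
import Pool.Agent.W_92892c_h14r.Letters
import Pool.Agent.W_92892c_h14.Wrap

/-!
From the quotients to the abstract theorem: infinitely many twists with order equal to the rank.
-/

namespace MQV

open Finset Filter PowerSeries Topology

variable {real : Bool} {L : ℤ → ℂ → ℂ} {r : ℤ → ℕ} {c : ℤ → ℂ} {A : ℤ → ℝ}

/-- `A_d = A_0 d` for the positive squarefree `d` congruent to `1` modulo some `M`. -/
def CondMod (A : ℤ → ℝ) : Prop :=
  ∃ M : ℕ, 1 ≤ M ∧ ∃ A0 : ℝ, 0 < A0 ∧ ∀ d : ℕ, Squarefree d → d ≡ 1 [MOD M] → A d = A0 * d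

lemma zero_not_mem_im {a : Cls real} (ha : 0 < sqf a) : 0 ∉ im a := by
  intro h
  have := (sqf_neg_iff a).2 h
  omega

lemma om_eq_card {a : Cls real} (ha : 0 < sqf a) : om a = (sqf a).natAbs.primeFactors.card := by
  rw [primeFactors_sqf, Finset.erase_eq_of_notMem (zero_not_mem_im ha)]
  unfold om im
  rw [Finset.card_image_of_injective _ Subtype.val_injective]

lemma disjoint_of_coprime {a b : Cls real} (ha : 0 < sqf a)
    (h : Nat.Coprime (sqf a).natAbs (sqf b).natAbs) : Disjoint a.support b.support := by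
  rw [Finset.disjoint_left]
  intro i hia hib
  have h1 : i.1 ∈ im a := mem_image.2 ⟨i, hia, rfl⟩
  have h2 : i.1 ∈ im b := mem_image.2 ⟨i, hib, rfl⟩
  have h0 : i.1 ≠ 0 := by
    intro h3
    rw [h3] at h1
    exact zero_not_mem_im ha h1
  have h3 : i.1 ∈ (sqf a).natAbs.primeFactors := by
    rw [primeFactors_sqf]
    exact Finset.mem_erase.2 ⟨h0, h1⟩
  have h4 : i.1 ∈ (sqf b).natAbs.primeFactors := by
    rw [primeFactors_sqf]
    exact Finset.mem_erase.2 ⟨h0, h2⟩
  exact Finset.disjoint_left.1 h.disjoint_primeFactors h3 h4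

/-- The letters. -/
theorem exists_letters_cls (hA : CondMod A) : ∃ (P : ℕ → Cls real) (lam0 : ℝ) (t : ℕ → ℝ)
    (c : ℝ) (w : ℕ), W92892cR.Letters (fun a : Cls real => Real.log (A (sqf a))) P lam0 t c ∧
      ∀ ν, om (P ν) ≤ w := by
  classical
  obtain ⟨M, hM, A0, hA0, hAd⟩ := hA
  obtain ⟨m, c, w, hc, hm1, hm2, hm3⟩ := W92892cR.exists_letters M hM
  have hex : ∀ ν, ∃ a : Cls real, (1 ≤ ν → sqf a = (m ν : ℤ)) ∧ (ν = 0 → a = 0) := by
    intro ν
    rcases Nat.eq_zero_or_pos ν with h | h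
    · exact ⟨0, fun h1 => by omega, fun _ => rfl⟩
    · obtain ⟨h1, -, -, -⟩ := hm1 ν h
      have h2 : ((m ν : ℕ) : ℤ) ∈ Twists real :=
        ⟨Int.squarefree_natCast.2 h1, fun _ => by
          have := h1.ne_zero
          exact_mod_cast Nat.pos_of_ne_zero this⟩
      obtain ⟨a, ha⟩ := exists_sqf h2
      exact ⟨a, fun _ => ha, fun h3 => by omega⟩
  choose P hP1 hP0 using hex
  have hpos : ∀ ν, 1 ≤ ν → 0 < sqf (P ν) := by
    intro ν hν
    rw [hP1 ν hν]
    exact_mod_cast Nat.pos_of_ne_zero (hm1 ν hν).1.ne_zero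
  have hcop : ∀ μ ν, 1 ≤ μ → 1 ≤ ν → μ ≠ ν → Disjoint (P μ).support (P ν).support := by
    intro μ ν hμ hν hne
    refine disjoint_of_coprime (hpos μ hμ) ?_
    rw [hP1 μ hμ, hP1 ν hν, Int.natAbs_natCast, Int.natAbs_natCast]
    exact hm2 μ ν hμ hν hne
  have hsum : ∀ i j l n, 1 ≤ i → 1 ≤ j → 1 ≤ l → 1 ≤ n → i ≠ j → i ≠ l → i ≠ n → j ≠ l →
      j ≠ n → l ≠ n → sqf (P i + P j + P l + P n) = ((m i * m j * m l * m n : ℕ) : ℤ) := by
    intro i j l n hi hj hl hn h1 h2 h3 h4 h5 h6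
    have d1 := hcop i j hi hj h1
    have s1 : (P i + P j).support = (P i).support ∪ (P j).support := Finsupp.support_add_eq d1
    have d2 : Disjoint (P i + P j).support (P l).support := by
      rw [s1, Finset.disjoint_union_left]
      exact ⟨hcop i l hi hl h2, hcop j l hj hl h4⟩
    have s2 : (P i + P j + P l).support = (P i).support ∪ (P j).support ∪ (P l).support := by
      rw [Finsupp.support_add_eq d2, s1]
    have d3 : Disjoint (P i + P j + P l).support (P n).support := by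
      rw [s2, Finset.disjoint_union_left, Finset.disjoint_union_left]
      exact ⟨⟨hcop i n hi hn h3, hcop j n hj hn h5⟩, hcop l n hl hn h6⟩
    rw [sqf_add d3, sqf_add d2, sqf_add d1, hP1 i hi, hP1 j hj, hP1 l hl, hP1 n hn]
    push_cast
    ring
  refine ⟨P, Real.log A0, fun ν => Real.log (m ν), c, w, ⟨hc, ?_, ?_, ?_, ?_⟩, ?_⟩
  · intro μ ν hμ hν h
    by_contra hne
    have h1 := hm2 μ ν hμ hν hne
    have h2 : (m μ : ℤ) = m ν := by rw [← hP1 μ hμ, ← hP1 ν hν, h]
    have h3 : m μ = m ν := by exact_mod_cast h2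
    rw [h3, Nat.coprime_self] at h1
    have := (hm1 ν hν).2.2.1
    omega
  · intro i j l n hi hj hl hn h1 h2 h3 h4 h5 h6
    beta_reduce
    rw [hsum i j l n hi hj hl hn h1 h2 h3 h4 h5 h6]
    have c1 := hm2 i j hi hj h1
    have c2 : Nat.Coprime (m i * m j) (m l) := Nat.Coprime.mul_left (hm2 i l hi hl h2)
      (hm2 j l hj hl h4)
    have c3 : Nat.Coprime (m i * m j * m l) (m n) := Nat.Coprime.mul_left
      (Nat.Coprime.mul_left (hm2 i n hi hn h3) (hm2 j n hj hn h5)) (hm2 l n hl hn h6)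
    have hsq : Squarefree (m i * m j * m l * m n) := by
      rw [Nat.squarefree_mul c3, Nat.squarefree_mul c2, Nat.squarefree_mul c1]
      exact ⟨⟨⟨(hm1 i hi).1, (hm1 j hj).1⟩, (hm1 l hl).1⟩, (hm1 n hn).1⟩
    have hmod : m i * m j * m l * m n ≡ 1 [MOD M] := by
      have h7 := (((hm1 i hi).2.1.mul (hm1 j hj).2.1).mul (hm1 l hl).2.1).mul (hm1 n hn).2.1
      simpa using h7
    rw [hAd _ hsq hmod]
    have hz : ∀ ν, 1 ≤ ν → ((m ν : ℕ) : ℝ) ≠ 0 := fun ν hν => by
      exact_mod_cast (hm1 ν hν).1.ne_zero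
    push_cast
    have z1 := hz i hi
    have z2 := hz j hj
    have z3 := hz l hl
    have z4 := hz n hn
    rw [Real.log_mul hA0.ne' (by positivity), Real.log_mul (by positivity) z4,
      Real.log_mul (by positivity) z3, Real.log_mul z1 z2]
    ring
  · intro ν hν
    exact (hm3 ν hν).1
  · intro ν hν
    exact (hm3 ν hν).2
  · intro ν
    rcases Nat.eq_zero_or_pos ν with h | h
    · rw [hP0 ν h]
      unfold om
      simp
    · rw [om_eq_card (hpos ν h), hP1 ν h, Int.natAbs_natCast]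
      exact (hm1 ν h).2.2.2

end MQV
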