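import Pool.Agent.W_92892c_h14r.RDef

/-!
A homogeneous configuration.
-/

namespace W92892cR

open Finset Filter Topology

private theorem Comb_lim {𝓤 : Ultrafilter ℕ} {M : ℕ} (f : ℕ → ℕ) (hf : ∀ i, f i ≤ M) :
    ∃ m, m ≤ M ∧ ∀ᶠ i in (𝓤 : Filter ℕ), f i = m := by
  obtain ⟨m, hm⟩ := W92892cH53.exists_const (𝓤 := 𝓤) f hf
  obtain ⟨n, hn⟩ := hm.exists
  exact ⟨m, hn ▸ hf n, hm⟩

private theorem Comb_gt {𝓤 : Ultrafilter ℕ} (hU : ∀ a, ∀ᶠ i in (𝓤 : Filter ℕ), i ≠ a) (x : ℕ) :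
    ∀ᶠ q in (𝓤 : Filter ℕ), x < q := by
  have h := (Filter.eventually_all_finset (range (x + 1))).2 fun a _ => hU a
  filter_upwards [h] with q hq
  by_contra hcon
  exact hq q (Finset.mem_range.2 (by omega)) rfl

private theorem Comb_nu_gt (A q : ℕ) : q < nu A q := by
  unfold nu
  have h1 : q < 2 ^ q := Nat.lt_two_pow_self
  have h2 : 2 ^ q * 1 ≤ 2 ^ q * (2 * A + 1) := Nat.mul_le_mul_left _ (by omega)
  omega

private theorem Comb_nu_inj {A B q : ℕ} (h : nu A q = nu B q) : A = B := by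
  unfold nu at h
  have h1 : 0 < 2 ^ q := by positivity
  have h2 := Nat.eq_of_mul_eq_mul_left h1 h
  omega

theorem comb {𝓤 : Ultrafilter ℕ} (hU : ∀ a, ∀ᶠ i in (𝓤 : Filter ℕ), i ≠ a)
    (K : ℕ → ℕ → ℕ → ℕ → ℕ) {M : ℕ} (hK : ∀ a b c d, K a b c d ≤ M) :
    ∃ κ i c e g c' c'' : ℕ, [i, c, e, g, c', c''].Nodup ∧ 1 ≤ i ∧ 1 ≤ c ∧ 1 ≤ e ∧ 1 ≤ g ∧
      1 ≤ c' ∧ 1 ≤ c'' ∧ K i c e g = κ ∧ ∀ l ∈ [c, e, g, c', c''],
        ∀ᶠ A in (𝓤 : Filter ℕ), ∀ᶠ B in (𝓤 : Filter ℕ), ∀ᶠ q in (𝓤 : Filter ℕ),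
          K i l (nu A q) (nu B q) = κ := by
  have h1 : ∀ l A B, ∃ m, m ≤ M ∧ ∀ᶠ q in (𝓤 : Filter ℕ), K 1 l (nu A q) (nu B q) = m :=
    fun l A B => Comb_lim _ fun q => hK _ _ _ _
  choose g1 hg1M hg1 using h1
  have h2 : ∀ l A, ∃ m, m ≤ M ∧ ∀ᶠ B in (𝓤 : Filter ℕ), g1 l A B = m :=
    fun l A => Comb_lim _ fun B => hg1M _ _ _
  choose g2 hg2M hg2 using h2
  have h3 : ∀ l, ∃ m, m ≤ M ∧ ∀ᶠ A in (𝓤 : Filter ℕ), g2 l A = m :=
    fun l => Comb_lim _ fun A => hg2M _ _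
  choose g3 hg3M hg3 using h3
  have h4 : ∀ A, ∃ m, m ≤ M ∧ ∀ᶠ q in (𝓤 : Filter ℕ), g3 (nu A q) = m :=
    fun A => Comb_lim _ fun q => hg3M _
  choose g4 hg4M hg4 using h4
  obtain ⟨κ, -, hκ⟩ := Comb_lim (𝓤 := 𝓤) g4 hg4M
  -- the good indices
  have hgood : ∀ l, g3 l = κ → ∀ᶠ A in (𝓤 : Filter ℕ), ∀ᶠ B in (𝓤 : Filter ℕ),
      ∀ᶠ q in (𝓤 : Filter ℕ), K 1 l (nu A q) (nu B q) = κ := by
    intro l hl
    filter_upwards [hg3 l] with A hA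
    filter_upwards [hg2 l A] with B hB
    filter_upwards [hg1 l A B] with q hq
    rw [hq, hB, hA, hl]
  have hstar : ∀ᶠ A in (𝓤 : Filter ℕ), ∀ᶠ q in (𝓤 : Filter ℕ), g3 (nu A q) = κ := by
    filter_upwards [hκ] with A hA
    filter_upwards [hg4 A] with q hq
    rw [hq, hA]
  have hpick : ∀ x : ℕ, ∃ l, x < l ∧ g3 l = κ := by
    intro x
    obtain ⟨A, hA⟩ := hstar.exists
    obtain ⟨q, hq, hxq⟩ := (hA.and (Comb_gt hU x)).exists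
    exact ⟨nu A q, hxq.trans (Comb_nu_gt A q), hq⟩
  obtain ⟨c, hc1, hc⟩ := hpick 1
  obtain ⟨A, hA, hA'⟩ := ((hgood c hc).and hstar).exists
  obtain ⟨B, hB, hB', hBA⟩ := ((hA.and (hstar.and (hU A)))).exists
  obtain ⟨q, hq1, hq2, hq3, hq4⟩ := (hB.and (hA'.and (hB'.and (Comb_gt hU c)))).exists
  have he := hq4.trans (Comb_nu_gt A q)
  have hg := hq4.trans (Comb_nu_gt B q)
  have heg : nu A q ≠ nu B q := fun h => hBA (Comb_nu_inj h).symm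
  obtain ⟨c', hc'1, hc'⟩ := hpick (nu A q + nu B q + c + 1)
  obtain ⟨c'', hc''1, hc''⟩ := hpick c'
  refine ⟨κ, 1, c, nu A q, nu B q, c', c'', ?_, le_rfl, by omega, by omega, by omega, by omega,
    by omega, hq1, ?_⟩
  · simp only [List.nodup_cons, List.mem_cons, List.not_mem_nil, or_false, not_or, not_false_eq_true,
      List.nodup_nil, and_true]
    omega
  · intro l hl
    simp only [List.mem_cons, List.not_mem_nil, or_false] at hl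
    rcases hl with rfl | rfl | rfl | rfl | rfl
    · exact hgood _ hc
    · exact hgood _ hq2
    · exact hgood _ hq3
    · exact hgood _ hc'
    · exact hgood _ hc''

end W92892cR
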