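import Pool.Agent.W_92892c_h14r.Good
import Pool.Agent.W_92892c_h14.Comp

/-!
All the assertions, with upper bounds over the fields of degree at most `n0` (four in general, two
if infinitely many twists are known to have order equal to the rank).
-/

namespace MQV

open Finset Filter PowerSeries Topology MeasureTheory

variable {real : Bool} {L : ℤ → ℂ → ℂ} {r : ℤ → ℕ} {c : ℤ → ℂ} {A A' : ℤ → ℝ}
  {q : ℤ → Finset ℤ → ℝ} {n0 : ℕ}

/-- Upper bounds with exponents less than `1` over the fields of degree at most `m d`. -/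
def SubM (real : Bool) (m : ℤ → ℕ) (q : ℤ → Finset ℤ → ℝ) (A : ℤ → ℝ) : Prop :=
  ∀ d ∈ Twists real, ∃ α : ℝ, α < 1 ∧ ∃ K : ℝ, ∀ C : Finset ℤ, ↑C ⊆ Twists real → IsCoset C →
    d ∈ C → C.card ≤ m d → q d C ≤ K * siz A C ^ α

lemma SubM.mono {m m' : ℤ → ℕ} (h : ∀ d, m' d ≤ m d) (hS : SubM real m q A) :
    SubM real m' q A := by
  intro d hd
  obtain ⟨α, hα, K, hK⟩ := hS d hd
  exact ⟨α, hα, K, fun C hC hC' hdC hn => hK C hC hC' hdC (hn.trans (h d))⟩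

lemma Cmp.subM {b : ℝ} (h : Cmp real A A' b) {m : ℤ → ℕ} (hS : SubM real m q A) :
    SubM real m q A' := by
  intro d hd
  obtain ⟨α, hα, K, hK⟩ := hS d hd
  refine ⟨α, hα, |K| * (1 + (m d : ℕ) * b) ^ |α|, fun C hC hC' hdC hn => ?_⟩
  have h1 := hK C hC hC' hdC hn
  have h3' := one_le_siz A C
  have h2 : 0 ≤ siz A C ^ α := Real.rpow_nonneg (by linarith) _
  calc q d C ≤ K * siz A C ^ α := h1
    _ ≤ |K| * siz A C ^ α := mul_le_mul_of_nonneg_right (le_abs_self K) h2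
    _ ≤ |K| * ((1 + (m d : ℕ) * b) ^ |α| * siz A' C ^ α) :=
        mul_le_mul_of_nonneg_left (h.rpow hC hn α) (abs_nonneg K)
    _ = _ := by ring

lemma SubM.sub (h : SubM real (fun d => max n0 (2 ^ r d)) q A) (h2 : 2 ≤ n0) :
    Sub real r q A :=
  h.mono (m' := fun d => max 2 (2 ^ r d)) fun _ => max_le_max_right _ h2

lemma SubM.small (h : SubM real (fun d => max n0 (2 ^ r d)) q A) : SubM real (fun _ => n0) q A :=
  h.mono fun _ => le_max_left _ _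

lemma SubM.quad (h : SubM real (fun _ => n0) q A) (h2 : 2 ≤ n0) : SubQuad real q A := by
  intro a ha
  obtain ⟨α, hα, K, hK⟩ := h a ha
  exact ⟨α, hα, K, fun b hb => hK {a, b} (pair_subset ha hb) (isCoset_pair a b) (by simp)
    (Finset.card_le_two.trans h2)⟩

lemma subM_of_upper {m : ℤ → ℕ} (h : ∀ n : ℕ, Upper real q A n (1 / 2)) : SubM real m q A := by
  intro d hd
  obtain ⟨K, hK⟩ := h (m d)
  exact ⟨1 / 2, by norm_num, K, fun C hC hC' hdC hcard => hK C hC hC' hcard d hdC⟩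

lemma subM_of_bound {m : ℤ → ℕ} {B : ℝ}
    (h : ∀ C : Finset ℤ, ↑C ⊆ Twists real → IsCoset C → ∀ d ∈ C, q d C ≤ B) :
    SubM real m q A := by
  intro d hd
  refine ⟨0, zero_lt_one, B, fun C hC hC' hdC _ => ?_⟩
  rw [Real.rpow_zero, mul_one]
  exact h C hC hC' d hdC

/-- All the assertions. -/
structure ConcN (n0 : ℕ) (real : Bool) (r : ℤ → ℕ) (q : ℤ → Finset ℤ → ℝ) (L : ℤ → ℂ → ℂ)
    (A : ℤ → ℝ) : Prop where
  few : (∀ ε : ℝ, 0 < ε → Lower real q A 1 ε) → SubM real (fun _ => n0) q A → ∀ M : ℕ,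
    {d ∈ Twists real | r d ≤ M ∧ analyticOrderAt (L d) 1 ≠ r d}.Finite
  rank : (∀ ε : ℝ, 0 < ε → Lower real q A 1 ε) → SubM real (fun d => max n0 (2 ^ r d)) q A →
    RankPart real r L
  degrees : List.TFAE [
      RankPart real r L ∧ ∀ ε : ℝ, 0 < ε → Upper real q A 1 ε ∧ Lower real q A 1 ε,
      ∀ (n : ℕ) (ε : ℝ), 0 < ε → Upper real q A n ε ∧ Lower real q A n ε,
      (∀ ε : ℝ, 0 < ε → Upper real q A 1 ε ∧ Lower real q A 1 ε) ∧
        SubM real (fun d => max n0 (2 ^ r d)) q A]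
  asymptotic : (RankPart real r L ∧ ∀ d ∈ Twists real, q d {d} = 1) ↔
      (∀ ε : ℝ, 0 < ε → Lower real q A 1 ε) ∧ SubM real (fun d => max n0 (2 ^ r d)) q A ∧
      ∀ ε : ℝ, 0 < ε → ∃ j : ℕ, ∀ C : Finset ℤ, ↑C ⊆ Twists real → IsCoset C →
        C.card = 2 ^ j → ∀ d ∈ C, |q d C - 1| ≤ ε
  descent : RankPart real r L → ∀ (j : ℕ) (ε : ℝ),
    (∀ C : Finset ℤ, ↑C ⊆ Twists real → IsCoset C → C.card = 2 ^ j → ∀ d ∈ C,
      |Real.log (q d C)| ≤ ε) → ∀ C : Finset ℤ, ↑C ⊆ Twists real → IsCoset C →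
      C.card = 2 ^ (j + 1) → ∑ e ∈ C, (Real.log (q e {e})) ^ 2 ≤ 4 * ε ^ 2
  bounded : (∃ B : ℝ, 0 < B ∧ Bdd real q B) ↔
      RankPart real r L ∧ ∃ Φ : (ℕ → Bool) → ℝ, Measurable Φ ∧ (∃ M : ℝ, ∀ σ, |Φ σ| ≤ M) ∧
        ∀ d ∈ Twists real, Real.log (q d {d}) = ∫ σ, Φ σ * chiT d σ ∂coins
  squares : ∀ B : ℝ, 0 < B → Bdd real q B → ∀ T : Finset ℤ, ↑T ⊆ Twists real →
    ∑ d ∈ T, (Real.log (q d {d})) ^ 2 ≤ 4 * (Real.log B) ^ 2

lemma Bdd.lower {B : ℝ} (hB : 0 < B) (h : Bdd real q B) (n : ℕ) (ε : ℝ) (hε : 0 < ε) :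
    Lower real q A n ε := by
  refine ⟨B⁻¹, inv_pos.2 hB, fun C hC hC' _ d hd => ?_⟩
  refine le_trans ?_ (h C hC hC' d hd).1
  have h1 : siz A C ^ (-ε) ≤ 1 :=
    Real.rpow_le_one_of_one_le_of_nonpos (one_le_siz A C) (by linarith)
  have h2 := mul_le_mul_of_nonneg_left h1 (inv_pos.2 hB).le
  rwa [mul_one] at h2

theorem concN {γ : ℂ → ℂ} (hF : TwistFamily real γ L A c) (h2 : 2 ≤ n0)
    (hgood : (∀ ε : ℝ, 0 < ε → Lower real q A 1 ε) → SubM real (fun _ => n0) q A →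
      {d ∈ Twists real | analyticOrderAt (L d) 1 = r d}.Infinite)
    (hb : ∀ n : ℕ, ∃ M : ℕ, ∀ d ∈ Twists real, d.natAbs.primeFactors.card ≤ n → r d ≤ M)
    (hq : IsQ real L r c q) {b : ℝ} (hA : Cmp real A A' b) : ConcN n0 real r q L A' := by
  have hU : ∀ {n : ℕ} {α : ℝ}, Upper real q A' n α ↔ Upper real q A n α :=
    fun {n α} => ⟨hA.symm.upper, hA.upper⟩
  have hL : ∀ {n : ℕ} {α : ℝ}, Lower real q A' n α ↔ Lower real q A n α :=
    fun {n α} => ⟨hA.symm.lower, hA.lower⟩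
  have hS : ∀ {m : ℤ → ℕ}, SubM real m q A' ↔ SubM real m q A :=
    fun {m} => ⟨hA.symm.subM, hA.subM⟩
  have hinf : RankPart real r L → {d ∈ Twists real | analyticOrderAt (L d) 1 = r d}.Infinite := by
    intro hR
    have h1 : {d ∈ Twists real | analyticOrderAt (L d) 1 = r d} =
        {d ∈ Twists real | True} := by
      ext d
      exact ⟨fun h => ⟨h.1, trivial⟩, fun h => ⟨h.1, hR d h.1⟩⟩
    rw [h1, infinite_iff (real := real) (fun _ => True)]
    exact (om_one_infinite (real := real)).mono fun _ _ => trivial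
  have hrank : (∀ ε : ℝ, 0 < ε → Lower real q A 1 ε) →
      SubM real (fun d => max n0 (2 ^ r d)) q A → RankPart real r L := fun h1 h3 =>
    sub_rank hF (hgood h1 h3.small) hb hq h1 (h3.sub h2)
  have hgoodB : ∀ B : ℝ, 0 < B → Bdd real q B →
      {d ∈ Twists real | analyticOrderAt (L d) 1 = r d}.Infinite := fun B hB h =>
    hgood (fun ε hε => h.lower hB 1 ε hε)
      (subM_of_bound (B := B) fun C hC hC' d hd => (h C hC hC' d hd).2)
  refine ⟨?_, ?_, ?_, ?_, ?_, ?_, ?_⟩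
  · intro h1 h3 M
    have h1' : ∀ ε : ℝ, 0 < ε → Lower real q A 1 ε := fun ε hε => hL.1 (h1 ε hε)
    exact quad_finite hF (hgood h1' (hS.1 h3)) hq h1' ((hS.1 h3).quad h2) M
  · intro h1 h3
    exact hrank (fun ε hε => hL.1 (h1 ε hε)) (hS.1 h3)
  · simp only [hU, hL, hS]
    tfae_have 1 → 2 := by
      rintro ⟨hR, h⟩ n ε hε
      exact ⟨upper_all hF hq hR (fun ε hε => (h ε hε).1) n ε hε,
        lower_all hF hq hR (fun ε hε => (h ε hε).2) n ε hε⟩
    tfae_have 2 → 3 := by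
      intro h
      exact ⟨fun ε hε => h 1 ε hε, subM_of_upper fun n => (h n (1 / 2) (by norm_num)).1⟩
    tfae_have 3 → 1 := by
      rintro ⟨h1, h3⟩
      exact ⟨hrank (fun ε hε => (h1 ε hε).2) h3, h1⟩
    tfae_finish
  · simp only [hL, hS]
    constructor
    · rintro ⟨hR, h1⟩
      obtain ⟨h3, -, h4⟩ := (asym_tfae hF (hinf hR) hb hq).1 ⟨hR, h1⟩
      refine ⟨h3, subM_of_bound (B := 1) fun C hC hC' d hd => ?_, h4⟩
      rw [(hq.prod hF hR).2 C hC hC' d hd, Finset.prod_eq_one fun e he => h1 e (hC he)]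
    · rintro ⟨h1, h3, h4⟩
      exact (asym_tfae hF (hgood h1 h3.small) hb hq).2 ⟨h1, h3.sub h2, h4⟩
  · intro hR j ε h
    exact MQV.descent hF hq hR j ε h
  · constructor
    · rintro ⟨B, hB, h⟩
      exact (bdd_iff hF (hgoodB B hB h) hb hq).1 ⟨B, hB, h⟩
    · rintro h
      exact (bdd_iff hF (hinf h.1) hb hq).2 h
  · intro B hB h T hT
    exact Bdd.sum_sq hF (hgoodB B hB h) hb hq hB h T hT

/-- The twists of an elliptic curve. -/
theorem concN_curve {a2 a4 a6 : ℤ} (hΔ : (gcurve a2 a4 a6 1).Δ ≠ 0) {γ : ℂ → ℂ}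
    (hF : TwistFamily real γ L A c) (hA : CondMod A) :
    ConcN 4 real (rk a2 a4 a6) (fun d C => ‖quotK a2 a4 a6 L c d C‖) L A := by
  have hq := isQ_quotK (real := real) hΔ L c
  refine concN hF (by norm_num) (fun h1 h3 => ?_) (rk_bound hΔ real) hq (cmp_refl A)
  refine good_of_four hF hA (rk_bound hΔ real) (hq.low h1) ?_
  intro a ha
  obtain ⟨α, hα, K, hK⟩ := h3 a ha
  refine ⟨α, hα, K, fun C hC hC' haC h4 => ?_⟩
  rw [← hq C hC hC' a haC]
  exact hK C hC hC' haC h4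

open PPM in
/-- The congruent number curves. -/
theorem concN_congr (L : ℤ → ℂ → ℂ) (c : ℤ → ℂ)
    (hL : ∀ d ∈ Twists true, Differentiable ℂ (L d) ∧ EulerProduct (gcurve 0 (-1) 0 d) (L d))
    (hc : ∀ d ∈ Twists true, c d ≠ 0) :
    ConcN 2 true (rk 0 (-1) 0) (fun d C => ‖quotK 0 (-1) 0 L c d C‖) L (fun d => (d : ℝ)) := by
  have hF : TwistFamily true Complex.Gamma L famA c :=
    ⟨fam_gamma, by rw [Complex.Gamma_one]; exact one_ne_zero,
      fun d hd => (hL d hd).1.analyticAt 1, famA_pos,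
      fun d hd => fam_fe d hd (L d) (hL d hd).1 (by rw [← gcurve_congr]; exact (hL d hd).2),
      fam_fin, hc⟩
  refine concN hF le_rfl (fun h1 _ => congr_good L c (fun d hd => (hL d hd).1) fun d hd h0 => ?_)
    (rk_bound congr_disc true) (isQ_quotK congr_disc L c) famA_cmp
  have h3 := lower_ne h1 d hd
  beta_reduce at h3
  rw [h0, norm_zero] at h3
  exact h3 rfl

end MQV
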