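import Pool.Agent.W_92892c_h14r.RDef

/-!
Orders of a subspace and tops of its annihilator.
-/

namespace W92892cR

open Finset Filter Topology

/-- An index which is not an order is the top index of a functional vanishing on `U`. -/
theorem top_of_not_ord {n : ℕ} (U : Submodule ℂ (Fin (n + 1) → ℂ)) {i : ℕ} (hi : i < n + 1)
    (h : ¬ IsOrd U i) : ∃ φ : Fin (n + 1) → ℂ, (∀ u ∈ U, ∑ l, φ l * u l = 0) ∧ φ ⟨i, hi⟩ = 1 ∧
      ∀ l : Fin (n + 1), i < (l : ℕ) → φ l = 0 := by
  classical
  let L : Fin i → (U →ₗ[ℂ] ℂ) := fun k =>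
    (LinearMap.proj (⟨k, by omega⟩ : Fin (n + 1))).comp U.subtype
  let K : U →ₗ[ℂ] ℂ := (LinearMap.proj (⟨i, hi⟩ : Fin (n + 1))).comp U.subtype
  have hK : K ∈ Submodule.span ℂ (Set.range L) := by
    refine mem_span_of_iInf_ker_le_ker ?_
    intro u hu
    rw [Submodule.mem_iInf] at hu
    rw [LinearMap.mem_ker]
    by_contra hne
    refine h ⟨u.1, u.2, hi, hne, fun l hl => ?_⟩
    have := hu ⟨l, hl⟩
    rw [LinearMap.mem_ker] at this
    exact this
  obtain ⟨c, hc⟩ := (Submodule.mem_span_range_iff_exists_fun ℂ).1 hK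
  refine ⟨fun l => if (l : ℕ) = i then 1 else if hl : (l : ℕ) < i then - c ⟨l, hl⟩ else 0,
    ?_, ?_, ?_⟩
  · intro u hu
    have h1 : ∑ k : Fin i, c k * u ⟨k, by omega⟩ = u ⟨i, hi⟩ := by
      have h2 := LinearMap.congr_fun hc ⟨u, hu⟩
      rw [LinearMap.sum_apply] at h2
      simpa [L, K] using h2
    have h3 : ∀ l : Fin (n + 1), (if (l : ℕ) = i then (1 : ℂ) else
        if hl : (l : ℕ) < i then - c ⟨l, hl⟩ else 0) * u l =
        (if l = ⟨i, hi⟩ then u ⟨i, hi⟩ else 0) -
          ∑ k : Fin i, (if l = ⟨k, by omega⟩ then c k * u ⟨k, by omega⟩ else 0) := by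
      intro l
      by_cases h4 : (l : ℕ) = i
      · have h5 : l = ⟨i, hi⟩ := Fin.ext h4
        rw [if_pos h4, if_pos h5, sum_eq_zero, sub_zero, one_mul, h5]
        intro k _
        rw [if_neg]
        intro q
        have := congrArg Fin.val q
        simp only at this
        have := k.2
        omega
      · have h5 : l ≠ ⟨i, hi⟩ := fun q => h4 (congrArg Fin.val q)
        rw [if_neg h4, if_neg h5, zero_sub]
        by_cases h6 : (l : ℕ) < i
        · rw [dif_pos h6, sum_eq_single (⟨l, h6⟩ : Fin i)]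
          · rw [if_pos rfl]
            ring
          · intro k _ hk
            rw [if_neg]
            intro q
            apply hk
            have := congrArg Fin.val q
            exact Fin.ext (by simpa using this.symm)
          · intro q
            exact absurd (mem_univ _) q
        · rw [dif_neg h6, sum_eq_zero, zero_mul, neg_zero]
          intro k _
          rw [if_neg]
          intro q
          have := congrArg Fin.val q
          simp only at this
          have := k.2
          omega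
    rw [sum_congr rfl (fun l _ => h3 l), sum_sub_distrib, sum_comm]
    rw [sum_ite_eq' univ (⟨i, hi⟩ : Fin (n + 1)) (fun _ => u ⟨i, hi⟩), if_pos (mem_univ _), ← h1]
    rw [sub_eq_zero]
    refine sum_congr rfl fun k _ => ?_
    rw [sum_ite_eq' univ (⟨k, by omega⟩ : Fin (n + 1)) (fun _ => c k * u ⟨k, by omega⟩),
      if_pos (mem_univ _)]
  · simp
  · intro l hl
    show (if (l : ℕ) = i then (1 : ℂ) else if hl : (l : ℕ) < i then - c ⟨l, hl⟩ else 0) = 0
    rw [if_neg (by omega), dif_neg (by omega)]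

open scoped Classical in
/-- At most half of the indices are not orders. -/
theorem count_le {G : PowerSeries ℂ} (hG : PowerSeries.coeff 0 G = 1) {n : ℕ} {ι : Type*}
    {f : Filter ι} [f.NeBot] {x : ι → ℂ} (hx : Tendsto (fun i => ‖x i‖) f atTop)
    {F : ι → PowerSeries ℂ} (hF : ∀ i, W92892c.IsType G (x i) (F i))
    (U : Submodule ℂ (Fin (n + 1) → ℂ))
    (hU : ∀ i, (fun l : Fin (n + 1) => PowerSeries.coeff (l : ℕ) (F i)) ∈ U) (t : ℕ)
    (ht : t ≤ n) : ((Finset.range (t + 1)).filter (fun i => ¬ IsOrd U i)).card ≤ t / 2 := by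
  obtain ⟨S, hS⟩ : ∃ S, S = (Finset.range (t + 1)).filter (fun i => ¬ IsOrd U i) := ⟨_, rfl⟩
  rw [← hS]
  have hS1 : ∀ i : S, (i : ℕ) < n + 1 := by
    intro i
    obtain ⟨i, hi⟩ := i
    subst hS
    rw [mem_filter, mem_range] at hi
    show i < n + 1
    omega
  have hS2 : ∀ i : S, (i : ℕ) < t + 1 := by
    intro i
    obtain ⟨i, hi⟩ := i
    subst hS
    rw [mem_filter, mem_range] at hi
    exact hi.1
  have hS3 : ∀ i : S, ¬ IsOrd U i := by
    intro i
    obtain ⟨i, hi⟩ := i
    subst hS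
    rw [mem_filter] at hi
    exact hi.2
  choose φ h1 h2 h3 using fun i : S => top_of_not_ord U (hS1 i) (hS3 i)
  let Λ : Submodule ℂ (Fin (t + 1) → ℂ) :=
    { carrier := {ψ | ∀ i, ∑ l : Fin (t + 1), ψ l * PowerSeries.coeff (l : ℕ) (F i) = 0}
      add_mem' := by
        intro a b ha hb i
        simp only [Pi.add_apply, add_mul, sum_add_distrib]
        rw [ha i, hb i, add_zero]
      zero_mem' := by
        intro i
        simp
      smul_mem' := by
        intro a b hb i
        simp only [Pi.smul_apply, smul_eq_mul, mul_assoc]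
        rw [← mul_sum, hb i, mul_zero] }
  have hψ : ∀ i : S, (fun l : Fin (t + 1) => φ i ⟨l, by omega⟩) ∈ Λ := by
    intro i k
    have h4 := h1 i _ (hU k)
    have h5 : ∑ l : Fin (n + 1), φ i l * PowerSeries.coeff (l : ℕ) (F k) =
        ∑ l ∈ range (n + 1), (if hl : l < n + 1 then φ i ⟨l, hl⟩ * PowerSeries.coeff l (F k)
          else 0) := by
      rw [Finset.sum_range]
      refine sum_congr rfl fun l _ => ?_
      rw [dif_pos l.2]
    have h6 : ∑ l : Fin (t + 1), φ i ⟨l, by omega⟩ * PowerSeries.coeff (l : ℕ) (F k) =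
        ∑ l ∈ range (t + 1), (if hl : l < n + 1 then φ i ⟨l, hl⟩ * PowerSeries.coeff l (F k)
          else 0) := by
      rw [Finset.sum_range]
      refine sum_congr rfl fun l _ => ?_
      rw [dif_pos (by omega)]
    show ∑ l : Fin (t + 1), φ i ⟨l, by omega⟩ * PowerSeries.coeff (l : ℕ) (F k) = 0
    rw [h6]
    refine (sum_subset (range_subset_range.2 (by omega)) ?_).trans (h5.symm.trans h4)
    intro l hl1 hl2
    rw [mem_range] at hl1 hl2
    rw [dif_pos hl1, h3 i ⟨l, hl1⟩ (by
      show (i : ℕ) < l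
      have := hS2 i
      omega), zero_mul]
  let ψ : S → Λ := fun i => ⟨_, hψ i⟩
  have hli : LinearIndependent ℂ ψ := by
    refine LinearIndependent.of_comp Λ.subtype ?_
    rw [Fintype.linearIndependent_iff]
    intro g hg
    by_contra hcon
    push Not at hcon
    obtain ⟨i0, hi0⟩ := hcon
    obtain ⟨m, hm1, hm2⟩ := exists_max_image (univ.filter (fun i : S => g i ≠ 0))
      (fun i => (i : ℕ)) ⟨i0, by simpa using hi0⟩
    rw [mem_filter] at hm1
    have h4 := congrFun hg ⟨(m : ℕ), hS2 m⟩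
    rw [Finset.sum_apply, sum_eq_single m] at h4
    · have h5 : (Λ.subtype ∘ ψ) m ⟨(m : ℕ), hS2 m⟩ = 1 := h2 m
      rw [Pi.smul_apply, h5, smul_eq_mul, mul_one] at h4
      exact hm1.2 h4
    · intro i _ hi
      by_cases hgi : g i = 0
      · rw [hgi, zero_smul]
        rfl
      · have h6 := hm2 i (by simpa using hgi)
        have h7 : (i : ℕ) < m := lt_of_le_of_ne h6 (fun q => hi (Subtype.ext q))
        have h8 : (Λ.subtype ∘ ψ) i ⟨(m : ℕ), hS2 m⟩ = 0 := h3 i ⟨(m : ℕ), hS1 m⟩ h7
        rw [Pi.smul_apply, h8, smul_zero]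
    · intro q
      exact absurd (mem_univ _) q
  have h8 := hli.fintype_card_le_finrank
  rw [Fintype.card_coe] at h8
  exact h8.trans (W92892c.finrank_le_half hG hx hF t Λ (fun φ hφ i => hφ i))

end W92892cR
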