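import Pool.Agent.W_92892c_h14r.RDef

/-!
Zeros of the coefficient sequences of `e^w` times an even series.
-/

namespace W92892cR

open Finset Filter Topology

/-- The coefficients of `e^(-w)` times the series of `y`. -/
private theorem Count_coeff (y : ℕ → ℂ) (m : ℕ) :
    PowerSeries.coeff m (PowerSeries.rescale (-1 : ℂ) (PowerSeries.exp ℂ) * PowerSeries.mk y) =
      ∑ l ∈ Finset.range (m + 1), y l * ((-1) ^ (m - l) / ((m - l).factorial : ℂ)) := by
  rw [mul_comm, PowerSeries.coeff_mul,
    Finset.Nat.sum_antidiagonal_eq_sum_range_succ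
      (fun a b => PowerSeries.coeff a (PowerSeries.mk y) *
        PowerSeries.coeff b (PowerSeries.rescale (-1 : ℂ) (PowerSeries.exp ℂ))) m]
  refine Finset.sum_congr rfl fun l _ => ?_
  rw [PowerSeries.coeff_mk, PowerSeries.coeff_rescale, PowerSeries.coeff_exp]
  congr 1
  rw [map_div₀, map_one, map_natCast]
  ring

private theorem Count_exp : PowerSeries.exp ℂ * PowerSeries.rescale (-1 : ℂ) (PowerSeries.exp ℂ) = 1 := by
  have h := PowerSeries.exp_mul_exp_neg_eq_one (A := ℂ)
  rw [PowerSeries.evalNegHom] at h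
  exact h

/-- At most half of the coefficients vanish. -/
theorem Ev.zeros_le {n : ℕ} {y : ℕ → ℂ} (hy : Ev n y) (h0 : y 0 ≠ 0) :
    ((Finset.range (n + 1)).filter (fun l => y l = 0)).card ≤ n / 2 := by
  classical
  -- the even series
  obtain ⟨P, hP⟩ : ∃ P : PowerSeries ℂ,
      P = PowerSeries.rescale (-1 : ℂ) (PowerSeries.exp ℂ) * PowerSeries.mk y := ⟨_, rfl⟩
  have hP0 : PowerSeries.coeff 0 P = y 0 := by
    rw [hP, Count_coeff]
    simp
  have hPodd : ∀ j ≤ n, Odd j → PowerSeries.coeff j P = 0 := by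
    intro j hj hjo
    rw [hP, Count_coeff]
    exact hy j hj hjo
  have hexpP : PowerSeries.exp ℂ * P = PowerSeries.mk y := by
    rw [hP, ← mul_assoc, Count_exp, one_mul]
  obtain ⟨E, hE⟩ : ∃ E : PowerSeries ℂ,
      E = PowerSeries.mk (fun j => if Odd j then 0 else PowerSeries.coeff j P / y 0) := ⟨_, rfl⟩
  have hEo : ∀ j, Odd j → PowerSeries.coeff j E = 0 := by
    intro j hj
    rw [hE, PowerSeries.coeff_mk, if_pos hj]
  have hEn : ∀ j ≤ n, PowerSeries.coeff j E = PowerSeries.coeff j P / y 0 := by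
    intro j hj
    rw [hE, PowerSeries.coeff_mk]
    split_ifs with h
    · rw [hPodd j hj h, zero_div]
    · rfl
  have hE0 : PowerSeries.coeff 0 E = 1 := by
    rw [hEn 0 (Nat.zero_le _), hP0, div_self h0]
  have hcoef : ∀ l ≤ n, PowerSeries.coeff l (PowerSeries.exp ℂ * E) = y l / y 0 := by
    intro l hl
    have h1 : PowerSeries.coeff l (PowerSeries.exp ℂ * P) = y l := by
      rw [hexpP, PowerSeries.coeff_mk]
    rw [← h1, PowerSeries.coeff_mul, PowerSeries.coeff_mul, Finset.sum_div]
    refine Finset.sum_congr rfl fun ab hab => ?_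
    have hab' := Finset.HasAntidiagonal.mem_antidiagonal.1 hab
    rw [hEn ab.2 (by omega), mul_div_assoc]
  -- the functionals
  let Λ : Submodule ℂ (Fin (n + 1) → ℂ) :=
    { carrier := {φ | ∀ l : Fin (n + 1), y l ≠ 0 → φ l = 0}
      add_mem' := fun {a b} ha hb l hl => by
        show a l + b l = 0
        rw [ha l hl, hb l hl, add_zero]
      zero_mem' := fun l _ => rfl
      smul_mem' := fun c a ha l hl => by
        show c * a l = 0
        rw [ha l hl, mul_zero] }
  have hx : Tendsto (fun i : ℕ => ‖((i : ℕ) : ℂ)‖) atTop atTop := by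
    simp only [Complex.norm_natCast]
    exact tendsto_natCast_atTop_atTop
  have hF : ∀ i : ℕ, W92892c.IsType 1 ((i : ℕ) : ℂ)
      (PowerSeries.rescale ((i : ℕ) : ℂ) (PowerSeries.exp ℂ * E)) := by
    intro i
    refine ⟨PowerSeries.rescale ((i : ℕ) : ℂ) E, fun j hj => ?_, ?_, ?_⟩
    · rw [PowerSeries.coeff_rescale, hEo j hj, mul_zero]
    · rw [PowerSeries.coeff_rescale, hE0, pow_zero, mul_one]
    · rw [mul_one, map_mul]
  have hle : Module.finrank ℂ Λ ≤ n / 2 := by
    refine W92892c.finrank_le_half (G := 1) (by simp) hx hF n Λ ?_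
    intro φ hφ i
    refine Finset.sum_eq_zero fun l _ => ?_
    by_cases hl : y l = 0
    · rw [PowerSeries.coeff_rescale, hcoef l (by have := l.2; omega), hl, zero_div, mul_zero, mul_zero]
    · rw [hφ l hl, zero_mul]
  -- the count
  let S : Type := {l : Fin (n + 1) // y l = 0}
  let g : (S → ℂ) →ₗ[ℂ] Λ :=
    { toFun := fun f => ⟨fun l => if h : y l = 0 then f ⟨l, h⟩ else 0, fun l hl => by
        show (if h : y l = 0 then f ⟨l, h⟩ else 0) = 0
        rw [dif_neg hl]⟩
      map_add' := fun a b => by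
        apply Subtype.ext
        funext l
        show (if h : y l = 0 then (a + b) ⟨l, h⟩ else 0) =
          (if h : y l = 0 then a ⟨l, h⟩ else 0) + (if h : y l = 0 then b ⟨l, h⟩ else 0)
        split_ifs <;> simp
      map_smul' := fun c a => by
        apply Subtype.ext
        funext l
        show (if h : y l = 0 then (c • a) ⟨l, h⟩ else 0) = c * (if h : y l = 0 then a ⟨l, h⟩ else 0)
        split_ifs <;> simp }
  have hinj : Function.Injective g := by
    intro a b hab
    funext s
    have h1 := congrArg (fun φ : Λ => (φ : Fin (n + 1) → ℂ) s.1) hab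
    have h2 : (if h : y s.1 = 0 then a ⟨s.1, h⟩ else 0) = (if h : y s.1 = 0 then b ⟨s.1, h⟩ else 0) := h1
    rw [dif_pos s.2, dif_pos s.2] at h2
    exact h2
  have h3 := LinearMap.finrank_le_finrank_of_injective hinj
  rw [Module.finrank_fintype_fun_eq_card] at h3
  have h4 : ((Finset.range (n + 1)).filter (fun l => y l = 0)).card = Fintype.card S := by
    rw [Fintype.card_subtype]
    symm
    apply Finset.card_bij (fun (l : Fin (n + 1)) _ => (l : ℕ))
    · intro l hl
      rw [Finset.mem_filter] at hl ⊢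
      exact ⟨Finset.mem_range.2 l.2, hl.2⟩
    · intro a _ b _ hab
      exact Fin.ext hab
    · intro l hl
      rw [Finset.mem_filter, Finset.mem_range] at hl
      exact ⟨⟨l, hl.1⟩, Finset.mem_filter.2 ⟨Finset.mem_univ _, hl.2⟩, rfl⟩
  omega

/-- Too many zeros at admissible places, one of them the zeroth: the sequence vanishes. -/
theorem Ev.eq_zero {h : ℕ} {y : ℕ → ℂ} (hy : Ev (2 * h) y) (h0 : y 0 = 0) (Z : Finset ℕ)
    (hZ : Z ⊆ Finset.range (2 * h + 1)) (hc : h ≤ Z.card)
    (hcount : ∀ t, (Z.filter (fun z => z ≤ t)).card ≤ t / 2) (hz : ∀ z ∈ Z, y z = 0) :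
    ∀ l ≤ 2 * h, y l = 0 := by
  classical
  by_contra hcon
  push Not at hcon
  obtain ⟨m, hm⟩ : ∃ m, m = Nat.find hcon := ⟨_, rfl⟩
  obtain ⟨hm1, hm2⟩ := Nat.find_spec hcon
  rw [← hm] at hm1 hm2
  have hmin : ∀ l < m, y l = 0 := by
    intro l hl
    have h1 := Nat.find_min hcon (m := l) (by rw [← hm]; exact hl)
    push Not at h1
    exact h1 (by omega)
  have hm0 : m ≠ 0 := by
    intro hm0
    rw [hm0] at hm2
    exact hm2 h0
  -- relations
  have hrel : ∀ m' ≤ 2 * h, Odd m' → m ≤ m' →
      ∑ l ∈ Finset.range (m' - m + 1), y (l + m) *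
        ((-1) ^ (m' - m - l) / ((m' - m - l).factorial : ℂ)) = 0 := by
    intro m' hm' hodd hmm
    have h1 := hy m' hm' hodd
    rw [show m' + 1 = m + (m' - m + 1) by omega, Finset.sum_range_add] at h1
    rw [Finset.sum_eq_zero (fun l hl => by
      rw [Finset.mem_range] at hl
      rw [hmin l hl, zero_mul]), zero_add] at h1
    rw [← h1]
    refine Finset.sum_congr rfl fun l _ => ?_
    rw [show m' - m - l = m' - (m + l) by omega, add_comm l m]
  have heven : ¬ Odd m := by
    intro hodd
    have h1 := hrel m hm1 hodd le_rfl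
    rw [Nat.sub_self, zero_add, Finset.sum_range_one] at h1
    simp at h1
    exact hm2 h1
  rw [Nat.not_odd_iff_even] at heven
  obtain ⟨q, hq⟩ := heven
  have hEv' : Ev (2 * h - m) (fun l => y (l + m)) := by
    intro m' hm' hodd
    have h1 := hrel (m' + m) (by omega) (by
      obtain ⟨r, hr⟩ := hodd
      exact ⟨r + q, by omega⟩) (by omega)
    rw [show m' + m - m = m' by omega] at h1
    exact h1
  have hzl := hEv'.zeros_le (by
    show y (0 + m) ≠ 0
    rw [zero_add]
    exact hm2)
  have hbig : (Z.filter (fun z => ¬ z ≤ m - 1)).card ≤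
      ((Finset.range (2 * h - m + 1)).filter (fun l => y (l + m) = 0)).card := by
    apply Finset.card_le_card_of_injOn (fun z => z - m)
    · intro z hz'
      have hz1 := Finset.mem_filter.1 hz'
      have hz2 := Finset.mem_range.1 (hZ hz1.1)
      have hz3 : m ≤ z := by omega
      show z - m ∈ (Finset.range (2 * h - m + 1)).filter (fun l => y (l + m) = 0)
      rw [Finset.mem_filter, Finset.mem_range]
      refine ⟨by omega, ?_⟩
      rw [Nat.sub_add_cancel hz3]
      exact hz z hz1.1
    · intro a ha b hb hab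
      have ha1 := (Finset.mem_filter.1 ha).2
      have hb1 := (Finset.mem_filter.1 hb).2
      have hab' : a - m = b - m := hab
      omega
  have hsplit := Finset.card_filter_add_card_filter_not (s := Z) (fun z => z ≤ m - 1)
  have hlow := hcount (m - 1)
  omega

end W92892cR
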