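import Pool.Agent.W_92892c_h14r.Count

/-!
The final contradiction: three shapes with vanishing product coefficients.
-/

namespace W92892cR

open Finset Filter Topology

private theorem PolyC_inf {𝓤 : Filter ℕ} [𝓤.NeBot] (hU : ∀ a, ∀ᶠ i in 𝓤, i ≠ a) {p : ℕ → Prop}
    (h : ∀ᶠ D in 𝓤, p D) : {D | p D}.Infinite := by
  intro hfin
  have h1 : ∀ᶠ i in 𝓤, ∀ a ∈ {D | p D}, i ≠ a := (eventually_all_finite hfin).2 fun a _ => hU a
  obtain ⟨D, hD1, hD2⟩ := (h.and h1).exists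
  exact hD2 D hD1 rfl

private theorem PolyC_zero {𝓤 : Filter ℕ} [𝓤.NeBot] (hU : ∀ a, ∀ᶠ i in 𝓤, i ≠ a) {P : Polynomial ℂ}
    (h : ∀ᶠ D : ℕ in 𝓤, P.eval (D : ℂ) = 0) : P = 0 := by
  refine Polynomial.eq_zero_of_infinite_isRoot P ?_
  refine ((PolyC_inf hU h).image (Nat.cast_injective (R := ℂ)).injOn).mono ?_
  rintro _ ⟨D, hD, rfl⟩
  exact hD

private theorem PolyC_coeff (N : ℕ) (g1 g2 g3 : ℕ → ℂ) (x1 x2 x3 : ℂ) :
    PowerSeries.coeff N (PowerSeries.rescale x1 (PowerSeries.mk g1) *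
      PowerSeries.rescale x2 (PowerSeries.mk g2) * PowerSeries.rescale x3 (PowerSeries.mk g3))
    = ∑ p ∈ antidiagonal N, (∑ q ∈ antidiagonal p.1, (x1 ^ q.1 * g1 q.1) * (x2 ^ q.2 * g2 q.2)) *
      (x3 ^ p.2 * g3 p.2) := by
  simp only [PowerSeries.coeff_mul, PowerSeries.coeff_rescale, PowerSeries.coeff_mk]

/-- The first step: the third factor disappears. -/
private theorem PolyC_step1 {N : ℕ} {g1 g2 g3 : ℕ → ℂ} (g30 : g3 0 = 1) {𝓤 : Filter ℕ} [𝓤.NeBot]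
    (hU : ∀ a, ∀ᶠ i in 𝓤, i ≠ a) (a b : ℂ)
    (H : ∀ᶠ D : ℕ in 𝓤, ∑ p ∈ antidiagonal N, (∑ q ∈ antidiagonal p.1,
      ((a + b + 1) ^ q.1 * g1 q.1) * ((a + D + 1) ^ q.2 * g2 q.2)) *
      ((b + D + 1) ^ p.2 * g3 p.2) = 0) :
    ∑ q ∈ antidiagonal N, ((a + b + 1) ^ q.1 * g1 q.1) * ((a - b) ^ q.2 * g2 q.2) = 0 := by
  obtain ⟨P, hP⟩ : ∃ P : Polynomial ℂ, ∀ d : ℂ, P.eval d = ∑ p ∈ antidiagonal N, (∑ q ∈ antidiagonal p.1,
      ((a + b + 1) ^ q.1 * g1 q.1) * ((a + d + 1) ^ q.2 * g2 q.2)) *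
      ((b + d + 1) ^ p.2 * g3 p.2) := by
    refine ⟨∑ p ∈ antidiagonal N, (∑ q ∈ antidiagonal p.1,
      (Polynomial.C ((a + b + 1) ^ q.1 * g1 q.1)) *
        ((Polynomial.C a + Polynomial.X + 1) ^ q.2 * Polynomial.C (g2 q.2))) *
      ((Polynomial.C b + Polynomial.X + 1) ^ p.2 * Polynomial.C (g3 p.2)), fun d => ?_⟩
    simp [Polynomial.eval_finsetSum]
  have h0 : P = 0 := PolyC_zero hU (by
    filter_upwards [H] with D hD
    rw [hP]
    exact hD)
  have h1 := hP (-(b + 1))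
  rw [h0, Polynomial.eval_zero] at h1
  rw [Finset.sum_eq_single ((N, 0) : ℕ × ℕ)] at h1
  · rw [h1]
    simp only [pow_zero, g30, mul_one]
    refine Finset.sum_congr rfl fun q _ => ?_
    congr 3
    ring
  · rintro ⟨p1, p2⟩ hp hne
    have hp2 : p2 ≠ 0 := by
      intro h
      apply hne
      rw [HasAntidiagonal.mem_antidiagonal] at hp
      simp only at hp
      rw [h, add_zero] at hp
      rw [hp, h]
    have e : b + -(b + 1) + 1 = 0 := by ring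
    simp only [e]
    rw [zero_pow hp2, zero_mul, mul_zero]
  · intro h
    exact absurd (HasAntidiagonal.mem_antidiagonal.2 (by simp)) h

/-- The second step: all products vanish. -/
private theorem PolyC_step2 {N : ℕ} {g1 g2 : ℕ → ℂ} {𝓤 : Filter ℕ} [𝓤.NeBot]
    (hU : ∀ a, ∀ᶠ i in 𝓤, i ≠ a) (A : ℕ)
    (H : ∀ᶠ B : ℕ in 𝓤, ∑ q ∈ antidiagonal N,
      (((A : ℂ) + B + 1) ^ q.1 * g1 q.1) * (((A : ℂ) - B) ^ q.2 * g2 q.2) = 0) :
    ∀ l ≤ N, g1 l * g2 (N - l) = 0 := by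
  obtain ⟨P, hP⟩ : ∃ P : Polynomial ℂ, ∀ b : ℂ, P.eval b = ∑ q ∈ antidiagonal N,
      (((A : ℂ) + b + 1) ^ q.1 * g1 q.1) * (((A : ℂ) - b) ^ q.2 * g2 q.2) := by
    refine ⟨∑ q ∈ antidiagonal N,
      ((Polynomial.C (A : ℂ) + Polynomial.X + 1) ^ q.1 * Polynomial.C (g1 q.1)) *
        ((Polynomial.C (A : ℂ) - Polynomial.X) ^ q.2 * Polynomial.C (g2 q.2)), fun b => ?_⟩
    simp [Polynomial.eval_finsetSum]
  have h0 : P = 0 := PolyC_zero hU (by
    filter_upwards [H] with B hB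
    rw [hP]
    exact hB)
  have hs : (2 * (A : ℂ) + 1) ≠ 0 := by
    have : ((2 * A + 1 : ℕ) : ℂ) ≠ 0 := Nat.cast_ne_zero.2 (by omega)
    push_cast at this
    exact this
  -- the substitution
  have h1 : ∀ z : ℂ, 1 + z ≠ 0 → ∑ q ∈ antidiagonal N, g1 q.1 * g2 q.2 * z ^ q.1 = 0 := by
    intro z hz
    have h2 := hP ((2 * (A : ℂ) + 1) * z / (1 + z) - A - 1)
    rw [h0, Polynomial.eval_zero] at h2
    have e1 : (A : ℂ) + ((2 * (A : ℂ) + 1) * z / (1 + z) - A - 1) + 1 = (2 * (A : ℂ) + 1) * z / (1 + z) := by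
      ring
    have e2 : (A : ℂ) - ((2 * (A : ℂ) + 1) * z / (1 + z) - A - 1) = (2 * (A : ℂ) + 1) / (1 + z) := by
      field_simp
      ring
    rw [e1, e2] at h2
    have h3 : ∑ q ∈ antidiagonal N, g1 q.1 * g2 q.2 * z ^ q.1
        = ((1 + z) / (2 * (A : ℂ) + 1)) ^ N * ∑ q ∈ antidiagonal N,
          (((2 * (A : ℂ) + 1) * z / (1 + z)) ^ q.1 * g1 q.1) *
            (((2 * (A : ℂ) + 1) / (1 + z)) ^ q.2 * g2 q.2) := by
      rw [Finset.mul_sum]
      refine Finset.sum_congr rfl fun q hq => ?_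
      rw [HasAntidiagonal.mem_antidiagonal] at hq
      rw [← hq, pow_add, mul_div_right_comm, mul_pow]
      have e3 : ((1 + z) / (2 * (A : ℂ) + 1)) ^ q.1 * ((2 * (A : ℂ) + 1) / (1 + z)) ^ q.1 = 1 := by
        rw [← mul_pow]
        have : (1 + z) / (2 * (A : ℂ) + 1) * ((2 * (A : ℂ) + 1) / (1 + z)) = 1 := by
          field_simp
        rw [this, one_pow]
      have e4 : ((1 + z) / (2 * (A : ℂ) + 1)) ^ q.2 * ((2 * (A : ℂ) + 1) / (1 + z)) ^ q.2 = 1 := by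
        rw [← mul_pow]
        have : (1 + z) / (2 * (A : ℂ) + 1) * ((2 * (A : ℂ) + 1) / (1 + z)) = 1 := by
          field_simp
        rw [this, one_pow]
      calc g1 q.1 * g2 q.2 * z ^ q.1
          = (((1 + z) / (2 * (A : ℂ) + 1)) ^ q.1 * ((2 * (A : ℂ) + 1) / (1 + z)) ^ q.1) *
            (((1 + z) / (2 * (A : ℂ) + 1)) ^ q.2 * ((2 * (A : ℂ) + 1) / (1 + z)) ^ q.2) *
            (g1 q.1 * g2 q.2 * z ^ q.1) := by rw [e3, e4, one_mul, one_mul]
        _ = _ := by ring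
    rw [h3, ← h2, mul_zero]
  -- the polynomial
  obtain ⟨Q, hQ⟩ : ∃ Q : Polynomial ℂ, Q = ∑ q ∈ antidiagonal N, Polynomial.monomial q.1 (g1 q.1 * g2 q.2) :=
    ⟨_, rfl⟩
  have hQ0 : Q = 0 := by
    refine Polynomial.eq_zero_of_infinite_isRoot Q ?_
    have hinf : (Set.univ \ {(-1 : ℂ)}).Infinite := Set.infinite_univ.sdiff (Set.finite_singleton _)
    refine hinf.mono fun z hz => ?_
    have hz1 : 1 + z ≠ 0 := by
      intro h
      apply hz.2
      rw [Set.mem_singleton_iff]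
      linear_combination h
    show Q.eval z = 0
    rw [hQ, Polynomial.eval_finsetSum]
    simp only [Polynomial.eval_monomial]
    exact h1 z hz1
  intro l hl
  have h4 : Q.coeff l = g1 l * g2 (N - l) := by
    rw [hQ, Polynomial.finsetSum_coeff, Finset.sum_eq_single ((l, N - l) : ℕ × ℕ)]
    · simp
    · rintro ⟨q1, q2⟩ hq hne
      rw [Polynomial.coeff_monomial, if_neg]
      intro h
      apply hne
      rw [HasAntidiagonal.mem_antidiagonal] at hq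
      simp only at hq h
      ext
      · exact h
      · show q2 = N - l
        omega
    · intro h
      exact absurd (HasAntidiagonal.mem_antidiagonal.2 (show l + (N - l) = N by omega)) h
  rw [← h4, hQ0, Polynomial.coeff_zero]

theorem poly_contra {κ : ℕ} {g1 g2 g3 : ℕ → ℂ} (h1 : Ev (4 * κ) g1) (h2 : Ev (4 * κ) g2)
    (g10 : g1 0 = 1) (g20 : g2 0 = 1) (g30 : g3 0 = 1) {𝓤 : Filter ℕ} [𝓤.NeBot]
    (hU : ∀ a, ∀ᶠ i in 𝓤, i ≠ a)
    (H : ∀ᶠ A in 𝓤, ∀ᶠ B in 𝓤, ∀ᶠ D in 𝓤, PowerSeries.coeff (4 * κ)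
      (PowerSeries.rescale ((A + B + 1 : ℕ) : ℂ) (PowerSeries.mk g1) *
        PowerSeries.rescale ((A + D + 1 : ℕ) : ℂ) (PowerSeries.mk g2) *
        PowerSeries.rescale ((B + D + 1 : ℕ) : ℂ) (PowerSeries.mk g3)) = 0) : False := by
  classical
  obtain ⟨A, hA⟩ := H.exists
  have h3 : ∀ᶠ B : ℕ in 𝓤, ∑ q ∈ antidiagonal (4 * κ),
      (((A : ℂ) + B + 1) ^ q.1 * g1 q.1) * (((A : ℂ) - B) ^ q.2 * g2 q.2) = 0 := by
    filter_upwards [hA] with B hB
    refine PolyC_step1 (g3 := g3) g30 hU (A : ℂ) (B : ℂ) ?_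
    filter_upwards [hB] with D hD
    rw [PolyC_coeff] at hD
    push_cast at hD
    exact hD
  have h4 := PolyC_step2 hU A h3
  have hz1 := h1.zeros_le (by rw [g10]; exact one_ne_zero)
  have hz2 := h2.zeros_le (by rw [g20]; exact one_ne_zero)
  have hsub : Finset.range (4 * κ + 1) ⊆ ((Finset.range (4 * κ + 1)).filter (fun l => g1 l = 0)) ∪
      ((Finset.range (4 * κ + 1)).filter (fun l => g2 l = 0)).image (fun l => 4 * κ - l) := by
    intro l hl
    rw [Finset.mem_range] at hl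
    rw [Finset.mem_union]
    rcases mul_eq_zero.1 (h4 l (by omega)) with h | h
    · left
      exact Finset.mem_filter.2 ⟨Finset.mem_range.2 hl, h⟩
    · right
      rw [Finset.mem_image]
      refine ⟨4 * κ - l, Finset.mem_filter.2 ⟨Finset.mem_range.2 (by omega), h⟩, ?_⟩
      show 4 * κ - (4 * κ - l) = l
      omega
  have hc := (Finset.card_le_card hsub).trans (Finset.card_union_le _ _)
  have hc2 : (((Finset.range (4 * κ + 1)).filter (fun l => g2 l = 0)).image (fun l => 4 * κ - l)).card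
      ≤ ((Finset.range (4 * κ + 1)).filter (fun l => g2 l = 0)).card := Finset.card_image_le
  rw [Finset.card_range] at hc
  omega

end W92892cR
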