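import Pool.Agent.W_92892c_h14r.WShape
import Pool.Agent.W_92892c_h14r.PolyC
import Pool.Agent.W_92892c_h14r.Comb

/-!
Quotients `o(size)` over the fields of degree at most four force infinitely many zero defects.
-/

namespace W92892cR

open Finset Filter Topology

variable {D : Type*} [AddCommGroup D] {R : PowerSeries ℂ} {lam : D → ℝ} {f : D → PowerSeries ℂ}
  {k : D → ℕ} {P : ℕ → D} {lam0 : ℝ} {t : ℕ → ℝ} {c : ℝ}

lemma mk_coeff (F : PowerSeries ℂ) : PowerSeries.mk (fun l => PowerSeries.coeff l F) = F := by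
  ext l
  rw [PowerSeries.coeff_mk]

lemma mk_scale (ρ : ℂ) (g : ℕ → ℂ) :
    PowerSeries.mk (fun l => ρ ^ l * g l) = PowerSeries.rescale ρ (PowerSeries.mk g) := by
  ext l
  rw [PowerSeries.coeff_mk, PowerSeries.coeff_rescale, PowerSeries.coeff_mk]

/-- The product coefficient vanishes. -/
theorem prod_zero (H : Rob R lam f k) (h : Letters lam P lam0 t c) {κ i a1 a2 a3 A B E : ℕ}
    (hκ : 1 ≤ κ) (hi : 1 ≤ i) (h1 : 1 ≤ a1) (h2 : 1 ≤ a2) (h3 : 1 ≤ a3) (hi1 : i ≠ a1)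
    (hi2 : i ≠ a2) (hi3 : i ≠ a3) (hD : ∀ d : D, d + d = 0) (hAB : A ≠ B) (hAE : A ≠ E)
    (hBE : B ≠ E) {𝓤 : Filter ℕ} [𝓤.NeBot] (hU : ∀ a, ∀ᶠ i in 𝓤, i ≠ a)
    (k0 : k (P i + P a1 + P a2 + P a3) = κ)
    (k1 : ∀ᶠ q in 𝓤, k (word P i a1 A B q) = κ) (k2 : ∀ᶠ q in 𝓤, k (word P i a2 A E q) = κ)
    (k3 : ∀ᶠ q in 𝓤, k (word P i a3 B E q) = κ) {g1 g2 g3 : ℕ → ℂ}
    (s1 : ∀ n ≤ 4 * κ, Tendsto (fun q => PowerSeries.coeff n (f (word P i a1 A B q)) /
        ((-scl c q : ℝ) : ℂ) ^ n) 𝓤 (𝓝 (((A + B + 1 : ℕ) : ℂ) ^ n * g1 n)))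
    (s2 : ∀ n ≤ 4 * κ, Tendsto (fun q => PowerSeries.coeff n (f (word P i a2 A E q)) /
        ((-scl c q : ℝ) : ℂ) ^ n) 𝓤 (𝓝 (((A + E + 1 : ℕ) : ℂ) ^ n * g2 n)))
    (s3 : ∀ n ≤ 4 * κ, Tendsto (fun q => PowerSeries.coeff n (f (word P i a3 B E q)) /
        ((-scl c q : ℝ) : ℂ) ^ n) 𝓤 (𝓝 (((B + E + 1 : ℕ) : ℂ) ^ n * g3 n))) :
    PowerSeries.coeff (4 * κ)
      (PowerSeries.rescale ((A + B + 1 : ℕ) : ℂ) (PowerSeries.mk g1) *
        PowerSeries.rescale ((A + E + 1 : ℕ) : ℂ) (PowerSeries.mk g2) *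
        PowerSeries.rescale ((B + E + 1 : ℕ) : ℂ) (PowerSeries.mk g3)) = 0 := by
  classical
  set a : D := P i + P a1 + P a2 + P a3 with ha
  have hs := scl_tendsto h.pos hU
  have hxn : Tendsto (fun q => ‖((-scl c q : ℝ) : ℂ)‖) 𝓤 atTop := by
    have h4 := tendsto_abs_atTop_atTop.comp hs
    exact h4.congr fun q => (norm_neg_ofReal _).symm
  have hx : ∀ᶠ q in 𝓤, ((-scl c q : ℝ) : ℂ) ≠ 0 := by
    filter_upwards [hs.eventually_gt_atTop 0] with q hq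
    have : (-scl c q : ℝ) ≠ 0 := by linarith
    exact_mod_cast this
  -- the fixed series
  have s0 : ∀ n ≤ 4 * κ, Tendsto (fun q => PowerSeries.coeff n (f a) /
      ((-scl c q : ℝ) : ℂ) ^ n) 𝓤 (𝓝 (if n = 0 then 1 else 0)) := by
    intro n _
    rcases Nat.eq_zero_or_pos n with hn | hn
    · subst hn
      rw [if_pos rfl, H.zero]
      simp only [pow_zero, div_one]
      exact tendsto_const_nhds
    · rw [if_neg (by omega), tendsto_zero_iff_norm_tendsto_zero]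
      have h4 : Tendsto (fun q => ‖((-scl c q : ℝ) : ℂ)‖ ^ n) 𝓤 atTop :=
        (tendsto_pow_atTop (by omega)).comp hxn
      have h5 := h4.inv_tendsto_atTop.const_mul ‖PowerSeries.coeff n (f a)‖
      rw [mul_zero] at h5
      refine h5.congr fun q => ?_
      rw [norm_div, norm_pow, div_eq_mul_inv]
      rfl
  have m1 := lim_mul (n := 4 * κ) hx s0 s1
  have m2 := lim_mul (n := 4 * κ) hx m1 s2
  have m3 := lim_mul (n := 4 * κ) hx m2 s3
  have m4 := m3 (4 * κ) le_rfl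
  rw [mk_coeff, mk_coeff, mk_scale, mk_scale, mk_scale] at m4
  have e0 : (PowerSeries.mk fun n : ℕ => if n = 0 then (1 : ℂ) else 0) = 1 := by
    ext l
    rw [PowerSeries.coeff_mk, PowerSeries.coeff_one]
  rw [e0, one_mul] at m4
  -- absolute values of the distinguished coefficients
  have hak : ∀ {b : ℕ → D} {X : ℕ} {g : ℕ → ℂ}, (∀ n ≤ 4 * κ, Tendsto (fun q =>
      PowerSeries.coeff n (f (b q)) / ((-scl c q : ℝ) : ℂ) ^ n) 𝓤
      (𝓝 (((X : ℕ) : ℂ) ^ n * g n))) →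
      Tendsto (fun q => ‖PowerSeries.coeff κ (f (b q))‖ / ‖((-scl c q : ℝ) : ℂ)‖ ^ κ) 𝓤
        (𝓝 ‖((X : ℕ) : ℂ) ^ κ * g κ‖) := by
    intro b X g hb
    refine (hb κ (by omega)).norm.congr fun q => ?_
    rw [norm_div, norm_pow]
  have hrat : ∀ {b : ℕ → D} {X : ℝ}, Tendsto (fun q => lam (b q) / scl c q) 𝓤 (𝓝 X) →
      Tendsto (fun q => |lam (b q)| / ‖((-scl c q : ℝ) : ℂ)‖) 𝓤 (𝓝 |X|) := by
    intro b X hb
    refine hb.abs.congr fun q => ?_
    rw [norm_neg_ofReal, abs_div]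
  have r1 := hrat (h.ratio_word hU hi h1 hi1 hAB)
  have r2 := hrat (h.ratio_word hU hi h2 hi2 hAE)
  have r3 := hrat (h.ratio_word hU hi h3 hi3 hBE)
  have hsum : Tendsto (fun q => (|lam (word P i a1 A B q)| + |lam (word P i a2 A E q)| +
      |lam (word P i a3 B E q)|) / ‖((-scl c q : ℝ) : ℂ)‖) 𝓤
      (𝓝 (|((A + B + 1 : ℕ) : ℝ)| + |((A + E + 1 : ℕ) : ℝ)| + |((B + E + 1 : ℕ) : ℝ)|)) := by
    refine ((r1.add r2).add r3).congr fun q => ?_
    rw [add_div, add_div]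
  refine lim_zero hκ hxn m4 (hak s1) (hak s2) (hak s3) hsum
    (fun q => ⟨norm_nonneg _, norm_nonneg _, norm_nonneg _, by positivity⟩) ?_
  intro ε hε
  obtain ⟨B', hB'⟩ := H.four a ε hε
  refine ⟨B', ?_⟩
  -- the words are different
  have hto1 := h.word_tendsto hU hi h1 hi1 hAB
  have hto2 := h.word_tendsto hU hi h2 hi2 hAE
  have hdiff : ∀ᶠ q in 𝓤, word P i a1 A B q ≠ word P i a2 A E q := by
    have h4 := (h.ratio_word hU hi h1 hi1 hAB).sub (h.ratio_word hU hi h2 hi2 hAE)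
    have h5 : ((A + B + 1 : ℕ) : ℝ) - ((A + E + 1 : ℕ) : ℝ) ≠ 0 := by
      intro h6
      apply hBE
      push_cast at h6
      have h7 : (B : ℝ) = E := by linarith
      exact_mod_cast h7
    filter_upwards [h4.eventually_ne h5] with q hq h6
    apply hq
    rw [h6, sub_self]
  filter_upwards [k1, k2, k3, hto1.eventually (p := fun d => d ≠ a)
    (by rw [eventually_cofinite]; simp), hto2.eventually (p := fun d => d ≠ a)
    (by rw [eventually_cofinite]; simp), hdiff] with q q1 q2 q3 q4 q5 q6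
  have e1 : a + word P i a1 A B q + word P i a2 A E q = word P i a3 B E q := by
    rw [ha]
    unfold word
    rw [show P i + P a1 + P a2 + P a3 + (P i + P a1 + P (nu A q) + P (nu B q)) +
      (P i + P a2 + P (nu A q) + P (nu E q)) = P i + P a3 + P (nu B q) + P (nu E q) +
      (P i + P i) + (P a1 + P a1) + (P a2 + P a2) + (P (nu A q) + P (nu A q)) by abel,
      hD, hD, hD, hD, add_zero, add_zero, add_zero, add_zero]
  have h4 := hB' _ _ (Ne.symm q4) (Ne.symm q5) q6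
  rw [e1, k0, q1, q2, q3, show κ + κ + κ + κ = 4 * κ by ring] at h4
  exact h4

/-- Infinitely many zero defects. -/
theorem rob_infinite (H : Rob R lam f k) (hR : PowerSeries.coeff 0 R = 1)
    (hD : ∀ d : D, d + d = 0) (h : Letters lam P lam0 t c) {M : ℕ}
    (hM : ∀ i j l m, k (P i + P j + P l + P m) ≤ M) : {d | k d = 0}.Infinite := by
  classical
  set 𝓤 : Ultrafilter ℕ := Filter.hyperfilter ℕ with h𝓤
  have hU : ∀ a, ∀ᶠ i in (𝓤 : Filter ℕ), i ≠ a := by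
    intro a
    have h1 : {i : ℕ | i ≠ a} ∈ (𝓤 : Filter ℕ) := by
      apply Filter.mem_hyperfilter_of_finite_compl
      have : {i : ℕ | i ≠ a}ᶜ = {a} := by ext i; simp
      rw [this]
      exact Set.finite_singleton a
    exact h1
  obtain ⟨κ, i, a1, a2, a3, m, m', hnd, p1, p2, p3, p4, p5, p6, hk0, hk⟩ :=
    comb hU (fun i j l m => k (P i + P j + P l + P m)) hM
  simp only [List.nodup_cons, List.mem_cons, List.not_mem_nil, or_false, not_or,
    List.nodup_nil, not_false_eq_true, and_true] at hnd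
  obtain ⟨⟨n1, n2, n3, n4, n5⟩, ⟨n6, n7, n8, n9⟩, ⟨n10, n11, n12⟩, ⟨n13, n14⟩, n15⟩ := hnd
  have w1 := hk a1 (by simp)
  have w2 := hk a2 (by simp)
  have w3 := hk a3 (by simp)
  have w4 := hk m (by simp)
  have w5 := hk m' (by simp)
  rcases Nat.eq_zero_or_pos κ with hκ | hκ
  · intro hfin
    obtain ⟨A, hA⟩ := w1.exists
    obtain ⟨B, hB, hBA⟩ := (hA.and (hU A)).exists
    have h1 := h.word_tendsto hU p1 p2 n1 (Ne.symm hBA)
    have h2 : ∀ᶠ q in (𝓤 : Filter ℕ), word P i a1 A B q ∉ {d | k d = 0} :=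
      h1.eventually hfin.compl_mem_cofinite
    obtain ⟨q, h3, h4⟩ := (h2.and hB).exists
    apply h3
    show k (word P i a1 A B q) = 0
    rw [← hκ]
    exact h4
  exfalso
  obtain ⟨g1, g10, g1E, g1s⟩ := word_shape H hR hD h p1 p2 p5 p6 n1 n4 n5 n8 n9 n15 hU w1 w4 w5
  obtain ⟨g2, g20, g2E, g2s⟩ := word_shape H hR hD h p1 p3 p5 p6 n2 n4 n5 n11 n12 n15 hU w2 w4 w5
  obtain ⟨g3, g30, g3E, g3s⟩ := word_shape H hR hD h p1 p4 p5 p6 n3 n4 n5 n13 n14 n15 hU w3 w4 w5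
  refine poly_contra g1E g2E g10 g20 g30 (𝓤 := (𝓤 : Filter ℕ)) hU ?_
  filter_upwards [w1, w2, g1s, g2s] with A v1 v2 u1 u2
  filter_upwards [v1, u1, hU A, w3, g3s] with B v1' u1' hBA v3 u3
  filter_upwards [v2, u2, hU A, hU B, v3, u3] with E v2' u2' hEA hEB v3' u3'
  exact prod_zero H h hκ p1 p2 p3 p4 n1 n2 n3 hD (Ne.symm hBA) (Ne.symm hEA) (Ne.symm hEB) hU
    hk0 v1' v2' v3' u1' u2' u3'

end W92892cR
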