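import Pool.Agent.W_92892c_h14r.Arith

/-!
Quotients of size `(log A)^α`, `α < 1`, over the fields of degree at most four: infinitely many
twists have order equal to the rank.
-/

namespace MQV

open Finset Filter PowerSeries Topology

variable {real : Bool} {L : ℤ → ℂ → ℂ} {r : ℤ → ℕ} {c : ℤ → ℂ} {A : ℤ → ℝ}

theorem Nrm.rob {R : PowerSeries ℂ} {k : ℤ → ℕ} {F : ℤ → PowerSeries ℂ} {lam : ℤ → ℝ}
    (h : Nrm real L r c lam R k F) (hlam : ∀ B : ℝ, {d ∈ Twists real | lam d ≤ B}.Finite)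
    (hB : ∀ a ∈ Twists real, ∀ ε : ℝ, 0 < ε → ∃ B : ℝ, ∀ C : Finset ℤ, ↑C ⊆ Twists real →
      IsCoset C → a ∈ C → C.card ≤ 4 → ‖bsdQuot L r c C‖ ≤ ε * ∑ e ∈ C, |lam e| + B) :
    W92892cR.Rob R (fun a : Cls real => lam (sqf a))
      (fun a => PowerSeries.C (coeff 0 (F (sqf a)))⁻¹ * F (sqf a)) (fun a => k (sqf a)) := by
  have hne : ∀ a : Cls real, coeff 0 (F (sqf a)) ≠ 0 := fun a => h.zero _ (sqf_mem a)
  refine ⟨?_, ?_, ?_, ?_, ?_⟩
  · intro a j hj
    rw [mul_assoc, mul_assoc, coeff_C_mul, ← mul_assoc (F (sqf a)), h.odd _ (sqf_mem a) j hj,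
      mul_zero]
  · intro a
    rw [coeff_C_mul, inv_mul_cancel₀ (hne a)]
  · rw [tendsto_atTop]
    intro b
    rw [eventually_cofinite]
    have h1 := (finite_iff (real := real) (fun d => lam d ≤ b)).1 (hlam b)
    refine h1.subset ?_
    intro a ha
    exact (not_le.1 ha).le
  · intro a ε hε
    set u : ℝ := ‖(coeff 0 (F (sqf a)))⁻¹‖ with hu
    have hu0 : 0 ≤ u := norm_nonneg _
    obtain ⟨B, hB1⟩ := hB (sqf a) (sqf_mem a) (ε / (u + 1)) (by positivity)
    refine ⟨ε * |lam (sqf a)| + |B| * u, fun b hab => ?_⟩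
    have h1 : sqf a ≠ sqf b := fun h2 => hab (sqf_injective h2).symm
    have h2 := hB1 {sqf a, sqf b} (pair_subset (sqf_mem a) (sqf_mem b)) (isCoset_pair _ _)
      (by simp) (Finset.card_le_two.trans (by norm_num))
    rw [h.quot _ (pair_subset (sqf_mem a) (sqf_mem b)), Finset.sum_pair h1, Finset.prod_pair h1,
      Finset.sum_pair h1] at h2
    beta_reduce
    rw [show PowerSeries.C (coeff 0 (F (sqf a)))⁻¹ * F (sqf a) *
      (PowerSeries.C (coeff 0 (F (sqf b)))⁻¹ * F (sqf b)) =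
      (PowerSeries.C (coeff 0 (F (sqf a)))⁻¹ * PowerSeries.C (coeff 0 (F (sqf b)))⁻¹) *
        (F (sqf a) * F (sqf b)) by ring, ← map_mul, coeff_C_mul, coeff_C_mul,
      h.top _ (sqf_mem b), mul_one, norm_mul, norm_mul, ← hu]
    have hv0 := norm_nonneg (coeff 0 (F (sqf b)))⁻¹
    generalize ‖(coeff 0 (F (sqf b)))⁻¹‖ = v at hv0 ⊢
    generalize ‖coeff (k (sqf a) + k (sqf b)) (F (sqf a) * F (sqf b))‖ = N at h2 ⊢
    have h3 : u * N ≤ ε * |lam (sqf b)| + (ε * |lam (sqf a)| + |B| * u) := by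
      have h4 : u * N ≤ u * (ε / (u + 1) * (|lam (sqf a)| + |lam (sqf b)|) + B) :=
        mul_le_mul_of_nonneg_left h2 hu0
      have h5 : u * (ε / (u + 1)) ≤ ε := by
        rw [mul_div_assoc', div_le_iff₀ (by positivity)]
        nlinarith
      have h6 : u * (ε / (u + 1)) * (|lam (sqf a)| + |lam (sqf b)|) ≤
          ε * (|lam (sqf a)| + |lam (sqf b)|) := mul_le_mul_of_nonneg_right h5 (by positivity)
      have h7 : u * B ≤ |B| * u := by
        rw [mul_comm]
        exact mul_le_mul_of_nonneg_right (le_abs_self B) hu0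
      nlinarith
    calc u * v * N = v * (u * N) := by ring
      _ ≤ v * (ε * |lam (sqf b)| + (ε * |lam (sqf a)| + |B| * u)) :=
          mul_le_mul_of_nonneg_left h3 hv0
      _ = _ := by ring
  · intro a ε hε
    set u : ℝ := ‖(coeff 0 (F (sqf a)))⁻¹‖ with hu
    have hu0 : 0 ≤ u := norm_nonneg _
    obtain ⟨B, hB1⟩ := hB (sqf a) (sqf_mem a) (ε / (u + 1)) (by positivity)
    refine ⟨ε * |lam (sqf a)| + |B| * u, fun b d hab had hbd => ?_⟩
    have h0 : (0 : Cls real) ∈ V4 a b d := mem_V4.2 (Or.inl rfl)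
    have h2 := hB1 (cst a (V4 a b d)) (cst_subset _ _) (isCoset_cst h0 (V4_add a b d))
      (mem_cst h0) (by rw [card_cst]; exact card_V4 a b d)
    rw [h.quot _ (cst_subset _ _), sum_cst, prod_cst, sum_cst,
      sum_V4 (fun v => k (sqf v)) hab had hbd, prod_V4 (fun v => F (sqf v)) hab had hbd,
      sum_V4 (fun v => |lam (sqf v)|) hab had hbd] at h2
    beta_reduce
    rw [show PowerSeries.C (coeff 0 (F (sqf a)))⁻¹ * F (sqf a) *
      (PowerSeries.C (coeff 0 (F (sqf b)))⁻¹ * F (sqf b)) *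
      (PowerSeries.C (coeff 0 (F (sqf d)))⁻¹ * F (sqf d)) *
      (PowerSeries.C (coeff 0 (F (sqf (a + b + d))))⁻¹ * F (sqf (a + b + d))) =
      (PowerSeries.C (coeff 0 (F (sqf a)))⁻¹ * PowerSeries.C (coeff 0 (F (sqf b)))⁻¹ *
        PowerSeries.C (coeff 0 (F (sqf d)))⁻¹ * PowerSeries.C (coeff 0 (F (sqf (a + b + d))))⁻¹) *
        (F (sqf a) * F (sqf b) * F (sqf d) * F (sqf (a + b + d))) by ring, ← map_mul, ← map_mul,
      ← map_mul, coeff_C_mul, coeff_C_mul, coeff_C_mul, coeff_C_mul,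
      h.top _ (sqf_mem b), h.top _ (sqf_mem d), h.top _ (sqf_mem (a + b + d)), mul_one, mul_one,
      mul_one, norm_mul, norm_mul, norm_mul, norm_mul, ← hu]
    have hv0 := norm_nonneg (coeff 0 (F (sqf b)))⁻¹
    have hw0 := norm_nonneg (coeff 0 (F (sqf d)))⁻¹
    have hx0 := norm_nonneg (coeff 0 (F (sqf (a + b + d))))⁻¹
    generalize ‖(coeff 0 (F (sqf b)))⁻¹‖ = v at hv0 ⊢
    generalize ‖(coeff 0 (F (sqf d)))⁻¹‖ = w at hw0 ⊢
    generalize ‖(coeff 0 (F (sqf (a + b + d))))⁻¹‖ = x at hx0 ⊢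
    generalize ‖coeff (k (sqf a) + k (sqf b) + k (sqf d) + k (sqf (a + b + d)))
      (F (sqf a) * F (sqf b) * F (sqf d) * F (sqf (a + b + d)))‖ = N at h2 ⊢
    set S : ℝ := |lam (sqf b)| + |lam (sqf d)| + |lam (sqf (a + b + d))| with hS
    have hS0 : 0 ≤ S := by positivity
    have h3 : u * N ≤ ε * S + (ε * |lam (sqf a)| + |B| * u) := by
      have h4 : u * N ≤ u * (ε / (u + 1) * (|lam (sqf a)| + S) + B) := by
        refine mul_le_mul_of_nonneg_left (h2.trans (le_of_eq ?_)) hu0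
        rw [hS]
        ring
      have h5 : u * (ε / (u + 1)) ≤ ε := by
        rw [mul_div_assoc', div_le_iff₀ (by positivity)]
        nlinarith
      have h6 : u * (ε / (u + 1)) * (|lam (sqf a)| + S) ≤
          ε * (|lam (sqf a)| + S) := mul_le_mul_of_nonneg_right h5 (by positivity)
      have h7 : u * B ≤ |B| * u := by
        rw [mul_comm]
        exact mul_le_mul_of_nonneg_right (le_abs_self B) hu0
      nlinarith
    calc u * v * w * x * N = v * w * x * (u * N) := by ring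
      _ ≤ v * w * x * (ε * S + (ε * |lam (sqf a)| + |B| * u)) :=
          mul_le_mul_of_nonneg_left h3 (by positivity)
      _ = _ := by ring

/-- Infinitely many twists with order equal to the rank. -/
theorem good_of_four {γ : ℂ → ℂ} (hF : TwistFamily real γ L A c) (hA : CondMod A)
    (hb : ∀ n : ℕ, ∃ M : ℕ, ∀ d ∈ Twists real, d.natAbs.primeFactors.card ≤ n → r d ≤ M)
    (hlow : ∀ ε : ℝ, 0 < ε → ∃ K : ℝ, 0 < K ∧ ∀ d ∈ Twists real,
      K * siz A {d} ^ (-ε) ≤ ‖bsdQuot L r c {d}‖)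
    (hfour : ∀ a ∈ Twists real, ∃ α : ℝ, α < 1 ∧ ∃ K : ℝ, ∀ C : Finset ℤ, ↑C ⊆ Twists real →
      IsCoset C → a ∈ C → C.card ≤ 4 → ‖bsdQuot L r c C‖ ≤ K * siz A C ^ α) :
    {d ∈ Twists real | analyticOrderAt (L d) 1 = r d}.Infinite := by
  classical
  have hne : ∀ d ∈ Twists real, bsdQuot L r c {d} ≠ 0 := by
    intro d hd h0
    obtain ⟨K, hK, h1⟩ := hlow 1 one_pos
    have h2 := h1 d hd
    rw [h0, norm_zero] at h2
    have h3 : 0 < siz A {d} ^ (-(1 : ℝ)) :=
      Real.rpow_pos_of_pos (by have := one_le_siz A {d}; linarith) _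
    have := mul_pos hK h3
    linarith
  obtain ⟨R, k, F, h, hk⟩ := (hF.ren hne).nrm2 fun d hd => bsdQuot_renc_singleton (hne d hd)
  have hkz : ∀ d ∈ Twists real, (analyticOrderAt (L d) 1 = r d ↔ k d = 0) := by
    intro d hd
    have h1 := hk d hd
    constructor
    · intro h2
      rw [h2] at h1
      have h3 : ((r d + k d : ℕ) : ℕ∞) = ((r d : ℕ) : ℕ∞) := by exact_mod_cast h1
      have h4 : r d + k d = r d := by exact_mod_cast h3
      omega
    · intro h2
      rw [h2] at h1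
      simpa using h1
  have hrob := h.rob (lam_fin hF) (by
    intro a ha ε hε
    obtain ⟨α, hα, K, hK⟩ := hfour a ha
    obtain ⟨B, hB⟩ := renc_bound (n := 4) hα hlow K ε hε
    exact ⟨B, fun C hC hC' haC h4 => hB C hC h4 (hK C hC hC' haC h4)⟩)
  obtain ⟨P, lam0, t, c', w, hP, hw⟩ := exists_letters_cls (real := real) hA
  obtain ⟨M, hM⟩ := bdd_cls hb (w + w + w + w)
  have h1 := W92892cR.rob_infinite hrob h.R0 cls_add_self hP (M := M) (by
    intro i j l n
    have h2 := om_add (P i + P j + P l) (P n)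
    have h3 := om_add (P i + P j) (P l)
    have h4 := om_add (P i) (P j)
    have h5 := hw i
    have h6 := hw j
    have h7 := hw l
    have h8 := hw n
    exact (h.rk _ (sqf_mem _)).trans (hM _ (by omega)))
  have h2 : {d ∈ Twists real | k d = 0}.Infinite :=
    (infinite_iff (real := real) (fun d => k d = 0)).2 h1
  refine h2.mono ?_
  rintro d ⟨hd, hd'⟩
  exact ⟨hd, (hkz d hd).2 hd'⟩

end MQV
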