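import Pool.Agent.W_92892c_h14r.RDef

/-!
Scaled limits of coefficients: products, quotients, square roots.
-/

namespace W92892cR

open Finset Filter Topology

variable {α : Type*} {𝓕 : Filter α} {x : α → ℂ} {n : ℕ}

private theorem LimAlg_coeff_mul (P Q : PowerSeries ℂ) (l : ℕ) :
    PowerSeries.coeff l (P * Q) = ∑ k ∈ range (l + 1), PowerSeries.coeff k P * PowerSeries.coeff (l - k) Q := by
  rw [PowerSeries.coeff_mul]
  exact Finset.Nat.sum_antidiagonal_eq_sum_range_succ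
    (fun i j => PowerSeries.coeff i P * PowerSeries.coeff j Q) l

private theorem LimAlg_split (u v z : ℂ) {l k : ℕ} (h : k ≤ l) :
    u * v / z ^ l = u / z ^ k * (v / z ^ (l - k)) := by
  rw [div_mul_div_comm, ← pow_add, Nat.add_sub_cancel' h]

theorem lim_mul {P Q : α → PowerSeries ℂ} {p q : ℕ → ℂ} (hx : ∀ᶠ a in 𝓕, x a ≠ 0)
    (hP : ∀ l ≤ n, Tendsto (fun a => PowerSeries.coeff l (P a) / x a ^ l) 𝓕 (𝓝 (p l)))
    (hQ : ∀ l ≤ n, Tendsto (fun a => PowerSeries.coeff l (Q a) / x a ^ l) 𝓕 (𝓝 (q l))) :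
    ∀ l ≤ n, Tendsto (fun a => PowerSeries.coeff l (P a * Q a) / x a ^ l) 𝓕
      (𝓝 (PowerSeries.coeff l (PowerSeries.mk p * PowerSeries.mk q))) := by
  intro l hl
  have _hx := hx
  have h1 : (fun a => PowerSeries.coeff l (P a * Q a) / x a ^ l) = fun a => ∑ k ∈ range (l + 1),
      PowerSeries.coeff k (P a) / x a ^ k * (PowerSeries.coeff (l - k) (Q a) / x a ^ (l - k)) := by
    funext a
    rw [LimAlg_coeff_mul, sum_div]
    refine sum_congr rfl fun k hk => ?_
    exact LimAlg_split _ _ _ (Nat.lt_succ_iff.1 (mem_range.1 hk))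
  rw [h1, LimAlg_coeff_mul]
  simp only [PowerSeries.coeff_mk]
  refine tendsto_finsetSum _ fun k hk => ?_
  have hk' := Nat.lt_succ_iff.1 (mem_range.1 hk)
  exact (hP k (hk'.trans hl)).mul (hQ (l - k) ((Nat.sub_le l k).trans hl))

theorem lim_div {P Q : α → PowerSeries ℂ} {q s : ℕ → ℂ} (hx : ∀ᶠ a in 𝓕, x a ≠ 0)
    (hQ0 : ∀ a, PowerSeries.coeff 0 (Q a) = 1)
    (hQ : ∀ l ≤ n, Tendsto (fun a => PowerSeries.coeff l (Q a) / x a ^ l) 𝓕 (𝓝 (q l)))
    (hS : ∀ l ≤ n, Tendsto (fun a => PowerSeries.coeff l (P a * Q a) / x a ^ l) 𝓕 (𝓝 (s l))) :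
    ∃ p : ℕ → ℂ, ∀ l ≤ n,
      Tendsto (fun a => PowerSeries.coeff l (P a) / x a ^ l) 𝓕 (𝓝 (p l)) := by
  have _hx := hx
  have key : ∀ l : ℕ, l ≤ n → ∃ v : ℂ, Tendsto (fun a => PowerSeries.coeff l (P a) / x a ^ l) 𝓕 (𝓝 v) := by
    intro l
    induction l using Nat.strong_induction_on with
    | _ l ih =>
      intro hl
      have h1 : ∀ k, ∃ v : ℂ, k < l → Tendsto (fun a => PowerSeries.coeff k (P a) / x a ^ k) 𝓕 (𝓝 v) := by
        intro k
        by_cases hk : k < l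
        · obtain ⟨v, hv⟩ := ih k hk (hk.le.trans hl)
          exact ⟨v, fun _ => hv⟩
        · exact ⟨0, fun h => absurd h hk⟩
      choose v hv using h1
      refine ⟨s l - ∑ k ∈ range l, v k * q (l - k), ?_⟩
      have h2 : (fun a => PowerSeries.coeff l (P a) / x a ^ l) = fun a =>
          PowerSeries.coeff l (P a * Q a) / x a ^ l - ∑ k ∈ range l,
            PowerSeries.coeff k (P a) / x a ^ k * (PowerSeries.coeff (l - k) (Q a) / x a ^ (l - k)) := by
        funext a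
        have h3 : ∑ k ∈ range l, PowerSeries.coeff k (P a) / x a ^ k *
            (PowerSeries.coeff (l - k) (Q a) / x a ^ (l - k)) =
            (∑ k ∈ range l, PowerSeries.coeff k (P a) * PowerSeries.coeff (l - k) (Q a)) / x a ^ l := by
          rw [sum_div]
          exact sum_congr rfl fun k hk => (LimAlg_split _ _ _ (mem_range.1 hk).le).symm
        rw [h3, LimAlg_coeff_mul, sum_range_succ, Nat.sub_self, hQ0, mul_one, ← sub_div, add_sub_cancel_left]
      rw [h2]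
      refine (hS l hl).sub (tendsto_finsetSum _ fun k hk => ?_)
      exact (hv k (mem_range.1 hk)).mul (hQ (l - k) ((Nat.sub_le l k).trans hl))
  have h1 : ∀ l, ∃ v : ℂ, l ≤ n → Tendsto (fun a => PowerSeries.coeff l (P a) / x a ^ l) 𝓕 (𝓝 v) := by
    intro l
    by_cases hl : l ≤ n
    · obtain ⟨v, hv⟩ := key l hl
      exact ⟨v, fun _ => hv⟩
    · exact ⟨0, fun h => absurd h hl⟩
  choose p hp using h1
  exact ⟨p, hp⟩

theorem lim_sqrt {F : α → PowerSeries ℂ} {p : ℕ → ℂ} (hx : ∀ᶠ a in 𝓕, x a ≠ 0)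
    (hF0 : ∀ a, PowerSeries.coeff 0 (F a) = 1)
    (hP : ∀ l ≤ n, Tendsto (fun a => PowerSeries.coeff l (F a * F a) / x a ^ l) 𝓕 (𝓝 (p l))) :
    ∃ g : ℕ → ℂ, ∀ l ≤ n,
      Tendsto (fun a => PowerSeries.coeff l (F a) / x a ^ l) 𝓕 (𝓝 (g l)) := by
  have _hx := hx
  have key : ∀ l : ℕ, l ≤ n → ∃ v : ℂ, Tendsto (fun a => PowerSeries.coeff l (F a) / x a ^ l) 𝓕 (𝓝 v) := by
    intro l
    induction l using Nat.strong_induction_on with
    | _ l ih =>
      intro hl
      rcases l with _ | m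
      · refine ⟨1, ?_⟩
        have h0 : (fun a => PowerSeries.coeff 0 (F a) / x a ^ 0) = fun _ => (1 : ℂ) := by
          funext a
          rw [hF0, pow_zero, div_one]
        rw [h0]
        exact tendsto_const_nhds
      have h1 : ∀ k, ∃ v : ℂ, k < m + 1 → Tendsto (fun a => PowerSeries.coeff k (F a) / x a ^ k) 𝓕 (𝓝 v) := by
        intro k
        by_cases hk : k < m + 1
        · obtain ⟨v, hv⟩ := ih k hk (hk.le.trans hl)
          exact ⟨v, fun _ => hv⟩
        · exact ⟨0, fun h => absurd h hk⟩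
      choose v hv using h1
      refine ⟨(p (m + 1) - ∑ k ∈ range m, v (k + 1) * v (m + 1 - (k + 1))) / 2, ?_⟩
      have h2 : (fun a => PowerSeries.coeff (m + 1) (F a) / x a ^ (m + 1)) = fun a =>
          (PowerSeries.coeff (m + 1) (F a * F a) / x a ^ (m + 1) - ∑ k ∈ range m,
            PowerSeries.coeff (k + 1) (F a) / x a ^ (k + 1) *
              (PowerSeries.coeff (m + 1 - (k + 1)) (F a) / x a ^ (m + 1 - (k + 1)))) / 2 := by
        funext a
        have h3 : ∑ k ∈ range m, PowerSeries.coeff (k + 1) (F a) / x a ^ (k + 1) *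
            (PowerSeries.coeff (m + 1 - (k + 1)) (F a) / x a ^ (m + 1 - (k + 1))) =
            (∑ k ∈ range m, PowerSeries.coeff (k + 1) (F a) * PowerSeries.coeff (m + 1 - (k + 1)) (F a)) /
              x a ^ (m + 1) := by
          rw [sum_div]
          refine sum_congr rfl fun k hk => (LimAlg_split _ _ _ ?_).symm
          have := mem_range.1 hk
          omega
        have h4 : PowerSeries.coeff (m + 1) (F a * F a) =
            2 * PowerSeries.coeff (m + 1) (F a) +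
              ∑ k ∈ range m, PowerSeries.coeff (k + 1) (F a) * PowerSeries.coeff (m + 1 - (k + 1)) (F a) := by
          rw [LimAlg_coeff_mul, sum_range_succ, sum_range_succ', Nat.sub_self, Nat.sub_zero, hF0]
          ring
        rw [h3, h4]
        ring
      rw [h2]
      refine ((hP (m + 1) hl).sub (tendsto_finsetSum _ fun k hk => ?_)).div_const 2
      have hk' := mem_range.1 hk
      exact (hv (k + 1) (by omega)).mul (hv (m + 1 - (k + 1)) (by omega))
  have h1 : ∀ l, ∃ v : ℂ, l ≤ n → Tendsto (fun a => PowerSeries.coeff l (F a) / x a ^ l) 𝓕 (𝓝 v) := by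
    intro l
    by_cases hl : l ≤ n
    · obtain ⟨v, hv⟩ := key l hl
      exact ⟨v, fun _ => hv⟩
    · exact ⟨0, fun h => absurd h hl⟩
  choose g hg using h1
  exact ⟨g, hg⟩

/-- Change of the scale: if `x' / x → ρ`, the limits are multiplied by `ρ ^ l`. -/
theorem lim_scale {F : α → PowerSeries ℂ} {g : ℕ → ℂ} {x' : α → ℂ} {ρ : ℂ}
    (hx : ∀ᶠ a in 𝓕, x a ≠ 0) (hx' : ∀ᶠ a in 𝓕, x' a ≠ 0)
    (hρ : Tendsto (fun a => x' a / x a) 𝓕 (𝓝 ρ))
    (hF : ∀ l ≤ n, Tendsto (fun a => PowerSeries.coeff l (F a) / x' a ^ l) 𝓕 (𝓝 (g l))) :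
    ∀ l ≤ n, Tendsto (fun a => PowerSeries.coeff l (F a) / x a ^ l) 𝓕 (𝓝 (ρ ^ l * g l)) := by
  intro l hl
  refine ((hρ.pow l).mul (hF l hl)).congr' ?_
  filter_upwards [hx, hx'] with a ha ha'
  rw [div_pow]
  have h1 : x a ^ l ≠ 0 := pow_ne_zero l ha
  have h2 : x' a ^ l ≠ 0 := pow_ne_zero l ha'
  field_simp

end W92892cR
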