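import Pool.Agent.W_92892c_h14r.RDef

/-!
Scaled limits of types.
-/

namespace W92892cR

open Finset Filter Topology

lemma coeff_type_zero {G : PowerSeries ℂ} (hG : PowerSeries.coeff 0 G = 1) {x : ℂ}
    {F : PowerSeries ℂ} (hF : W92892c.IsType G x F) : PowerSeries.coeff 0 F = 1 := by
  obtain ⟨E, _, hE0, rfl⟩ := hF
  rw [PowerSeries.coeff_zero_eq_constantCoeff_apply] at hG hE0 ⊢
  rw [map_mul, map_mul, hG, hE0, mul_one, mul_one, ← PowerSeries.coeff_zero_eq_constantCoeff_apply,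
    PowerSeries.coeff_rescale, pow_zero, one_mul, PowerSeries.coeff_exp]
  simp

/-- A scaled limit of types has the odd relations. -/
theorem ev_of_tendsto {G : PowerSeries ℂ} (hG : PowerSeries.coeff 0 G = 1) {α : Type*}
    {𝓕 : Filter α} [𝓕.NeBot] {x : α → ℂ} (hx : Tendsto (fun a => ‖x a‖) 𝓕 atTop)
    {F : α → PowerSeries ℂ} (hF : ∀ a, W92892c.IsType G (x a) (F a)) {n : ℕ} {s : α → ℂ}
    {y : ℕ → ℂ} (hy : ∀ l ≤ n,
      Tendsto (fun a => s a * (PowerSeries.coeff l (F a) / x a ^ l)) 𝓕 (𝓝 (y l))) :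
    Ev n y := by
  intro m hm hodd
  have hG' : PowerSeries.coeff 0 G⁻¹ = 1 := by
    rw [PowerSeries.coeff_zero_eq_constantCoeff_apply, PowerSeries.constantCoeff_inv,
      ← PowerSeries.coeff_zero_eq_constantCoeff_apply, hG, inv_one]
  have hne : ∀ᶠ a in 𝓕, x a ≠ 0 := by
    filter_upwards [hx.eventually_gt_atTop 0] with i hi
    intro h
    rw [h, norm_zero] at hi
    exact lt_irrefl _ hi
  have h1 : ∀ l ∈ Finset.range (m + 1), Tendsto (fun a => (s a * (PowerSeries.coeff l (F a) /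
      x a ^ l)) * ((x a ^ (m - l))⁻¹ * PowerSeries.coeff (m - l) (W92892c.hser G⁻¹ (-x a)))) 𝓕
      (𝓝 (y l * ((-1) ^ (m - l) / ((m - l).factorial : ℂ)))) := by
    intro l hl
    rw [Finset.mem_range] at hl
    refine (hy l (by omega)).mul ?_
    have h2 : Tendsto (fun x : ℂ => ‖x‖) (𝓕.map x) atTop := by
      rw [tendsto_map'_iff]
      exact hx
    have h3 := W92892c.tendsto_coeff_neg hG' h2 (m - l)
    rw [tendsto_map'_iff] at h3
    have e1 : ((-1 : ℂ)) ^ (m - l) * ((W92892c.ent ((m - l : ℕ) : ℤ) : ℝ) : ℂ) =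
        (-1) ^ (m - l) / ((m - l).factorial : ℂ) := by
      rw [W92892c.ent_natCast]
      push_cast
      ring
    rw [e1] at h3
    exact h3
  have h4 := tendsto_finsetSum _ h1
  refine tendsto_nhds_unique h4 ?_
  refine (tendsto_const_nhds (x := (0 : ℂ))).congr' ?_
  filter_upwards [hne] with a ha
  have h5 := W92892c.thet_type hG (hF a) (n := m) hodd le_rfl
  unfold W92892c.thet at h5
  rw [Fin.sum_univ_eq_sum_range (fun l => if l ≤ m then
    PowerSeries.coeff l (F a) * PowerSeries.coeff (m - l) (W92892c.hser G⁻¹ (-x a)) else 0)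
    (m + 1)] at h5
  have h6 : ∑ l ∈ Finset.range (m + 1), (s a * (PowerSeries.coeff l (F a) / x a ^ l)) *
      ((x a ^ (m - l))⁻¹ * PowerSeries.coeff (m - l) (W92892c.hser G⁻¹ (-x a))) =
      s a * (x a ^ m)⁻¹ * ∑ l ∈ Finset.range (m + 1), (if l ≤ m then
        PowerSeries.coeff l (F a) * PowerSeries.coeff (m - l) (W92892c.hser G⁻¹ (-x a)) else 0) := by
    rw [Finset.mul_sum]
    refine Finset.sum_congr rfl fun l hl => ?_
    rw [Finset.mem_range] at hl
    rw [if_pos (by omega)]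
    have e2 : x a ^ m = x a ^ (m - l) * x a ^ l := by
      rw [← pow_add]
      congr 1
      omega
    rw [e2, mul_inv]
    ring
  rw [h6, h5, mul_zero]

end W92892cR
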