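import Pool.Agent.W_92892c_h53.Ord

/-!
Definitions for the robust form without a hypothesis on the orders.
-/

namespace W92892cR

open Finset Filter Topology

/-- Up to order `n`, `y` is the coefficient sequence of `e^w` times an even series. -/
def Ev (n : ℕ) (y : ℕ → ℂ) : Prop :=
  ∀ m ≤ n, Odd m →
    ∑ l ∈ Finset.range (m + 1), y l * ((-1) ^ (m - l) / ((m - l).factorial : ℂ)) = 0

/-- `i` is the order of an element of `U`. -/
def IsOrd {n : ℕ} (U : Submodule ℂ (Fin (n + 1) → ℂ)) (i : ℕ) : Prop :=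
  ∃ u ∈ U, ∃ hi : i < n + 1, u ⟨i, hi⟩ ≠ 0 ∧ ∀ l : Fin (n + 1), (l : ℕ) < i → u l = 0

/-- The indices of the letters. -/
def nu (A q : ℕ) : ℕ := 2 ^ q * (2 * A + 1)

end W92892cR
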