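import Pool.Agent.W_92892c_h14r.RDef

/-!
The set of the forced zeros of a shape.
-/

namespace W92892cR

open Finset Filter Topology

open scoped Classical in
/-- The forced zeros. -/
noncomputable def zset (h : ℕ) (P : ℕ → Prop) : Finset ℕ :=
  (Finset.range h).filter (fun i => ¬ P i) ∪
    ((Finset.range h).filter (fun i => P i)).image (fun i => 2 * h - i)

lemma mem_zset {h : ℕ} {P : ℕ → Prop} {z : ℕ} :
    z ∈ zset h P ↔ (z < h ∧ ¬ P z) ∨ ∃ i < h, P i ∧ 2 * h - i = z := by
  classical
  unfold zset
  rw [Finset.mem_union, Finset.mem_filter, Finset.mem_range, Finset.mem_image]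
  simp only [Finset.mem_filter, Finset.mem_range, and_assoc]

lemma zset_sub (h : ℕ) (P : ℕ → Prop) : zset h P ⊆ Finset.range (2 * h + 1) := by
  intro z hz
  rw [mem_zset] at hz
  rw [Finset.mem_range]
  rcases hz with h1 | ⟨i, h1, -, h2⟩ <;> omega

lemma zset_card (h : ℕ) (P : ℕ → Prop) : (zset h P).card = h := by
  classical
  unfold zset
  rw [Finset.card_union_of_disjoint, Finset.card_image_of_injOn]
  · have h1 := Finset.card_filter_add_card_filter_not (s := Finset.range h) (fun i => P i)
    rw [Finset.card_range] at h1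
    omega
  · intro a ha b hb hab
    simp only [Finset.coe_filter, Finset.mem_range, Set.mem_ofPred_eq] at ha hb
    simp only at hab
    omega
  · rw [Finset.disjoint_left]
    intro z hz hz'
    rw [Finset.mem_filter, Finset.mem_range] at hz
    rw [Finset.mem_image] at hz'
    obtain ⟨i, hi, rfl⟩ := hz'
    rw [Finset.mem_filter, Finset.mem_range] at hi
    omega

open scoped Classical in
lemma zset_count (h : ℕ) (P : ℕ → Prop)
    (hc : ∀ t ≤ 2 * h, ((Finset.range (t + 1)).filter (fun i => ¬ P i)).card ≤ t / 2) (t : ℕ) :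
    ((zset h P).filter (fun z => z ≤ t)).card ≤ t / 2 := by
  rcases Nat.lt_or_ge t h with ht | ht
  · refine le_trans (Finset.card_le_card ?_) (hc t (by omega))
    intro z hz
    rw [Finset.mem_filter, mem_zset] at hz
    rw [Finset.mem_filter, Finset.mem_range]
    obtain ⟨h1 | ⟨i, h1, h2, h3⟩, h4⟩ := hz
    · exact ⟨by omega, h1.2⟩
    · omega
  rcases Nat.lt_or_ge t (2 * h) with ht2 | ht2
  · obtain ⟨u, rfl⟩ : ∃ u, t = h + u := ⟨t - h, by omega⟩
    have hsub : (zset h P).filter (fun z => z ≤ h + u) ⊆
        (Finset.range h).filter (fun i => ¬ P i) ∪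
          ((Finset.Ico (h - u) h).filter (fun i => P i)).image (fun i => 2 * h - i) := by
      intro z hz
      rw [Finset.mem_filter, mem_zset] at hz
      obtain ⟨h1 | ⟨i, h1, h2, h3⟩, h4⟩ := hz
      · exact Finset.mem_union_left _ (Finset.mem_filter.2 ⟨Finset.mem_range.2 h1.1, h1.2⟩)
      · refine Finset.mem_union_right _ (Finset.mem_image.2 ⟨i, ?_, h3⟩)
        rw [Finset.mem_filter, Finset.mem_Ico]
        exact ⟨⟨by omega, h1⟩, h2⟩
    have h1 := (Finset.card_le_card hsub).trans (Finset.card_union_le _ _)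
    have h2 : (((Finset.Ico (h - u) h).filter (fun i => P i)).image (fun i => 2 * h - i)).card ≤
      ((Finset.Ico (h - u) h).filter (fun i => P i)).card := Finset.card_image_le
    have h3 : (Finset.range h).filter (fun i => ¬ P i) =
        (Finset.range (h - u - 1 + 1)).filter (fun i => ¬ P i) ∪
          (Finset.Ico (h - u) h).filter (fun i => ¬ P i) := by
      ext z
      simp only [Finset.mem_union, Finset.mem_filter, Finset.mem_range, Finset.mem_Ico]
      constructor
      · rintro ⟨h4, h5⟩
        rcases Nat.lt_or_ge z (h - u) with h6 | h6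
        · exact Or.inl ⟨by omega, h5⟩
        · exact Or.inr ⟨⟨h6, h4⟩, h5⟩
      · rintro (⟨h4, h5⟩ | ⟨⟨h4, h4'⟩, h5⟩)
        · exact ⟨by omega, h5⟩
        · exact ⟨h4', h5⟩
    have h4 := hc (h - u - 1) (by omega)
    have h5 := Finset.card_filter_add_card_filter_not (s := Finset.Ico (h - u) h) (fun i => P i)
    rw [Nat.card_Ico] at h5
    have h6 : ((Finset.range h).filter (fun i => ¬ P i)).card ≤
        ((Finset.range (h - u - 1 + 1)).filter (fun i => ¬ P i)).card +
          ((Finset.Ico (h - u) h).filter (fun i => ¬ P i)).card := by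
      rw [h3]
      exact Finset.card_union_le _ _
    omega
  · have h1 := Finset.card_filter_le (zset h P) (fun z => z ≤ t)
    rw [zset_card] at h1
    omega

end W92892cR
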