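import Pool.Agent.W_92892c_h14r.OddLim
import Pool.Agent.W_92892c_h14r.ZSet
import Pool.Agent.W_92892c_h14r.Count
import Pool.Agent.W_92892c_h14r.Compl

/-!
The shape of the series of a class.
-/

namespace W92892cR

open Finset Filter Topology

/-- The scaled size. -/
noncomputable def ysum (n : ℕ) (x : ℂ) (F : PowerSeries ℂ) : ℝ :=
  ∑ l ∈ Finset.range (n + 1), ‖PowerSeries.coeff l F / x ^ l‖

lemma le_ysum {n l : ℕ} (hl : l ≤ n) (x : ℂ) (F : PowerSeries ℂ) :
    ‖PowerSeries.coeff l F / x ^ l‖ ≤ ysum n x F :=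
  Finset.single_le_sum (f := fun l => ‖PowerSeries.coeff l F / x ^ l‖)
    (fun _ _ => norm_nonneg _) (Finset.mem_range.2 (by omega))

lemma one_le_ysum {G : PowerSeries ℂ} (hG : PowerSeries.coeff 0 G = 1) {x : ℂ}
    {F : PowerSeries ℂ} (hF : W92892c.IsType G x F) (n : ℕ) : 1 ≤ ysum n x F := by
  have h1 := le_ysum (Nat.zero_le n) x F
  rw [coeff_type_zero hG hF] at h1
  simpa using h1

variable {ι : Type*} {x : ι → ℂ} {F : ι → PowerSeries ℂ} {h : ℕ}

/-- The span of the truncated series. -/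
noncomputable def spn (h : ℕ) (F : ι → PowerSeries ℂ) : Submodule ℂ (Fin (2 * h + 1) → ℂ) :=
  Submodule.span ℂ (Set.range fun i => W92892cH53.vec (2 * h) (F i))

theorem span_small {𝓕 : Filter ι}
    (hB : ∀ a, Tendsto (fun b => PowerSeries.coeff (2 * h) (F a * F b) /
      ((x b) ^ (h + 1) * (ysum (2 * h) (x b) (F b) : ℂ))) 𝓕 (𝓝 0))
    (u : Fin (2 * h + 1) → ℂ) (hu : u ∈ spn h F) :
    Tendsto (fun b => PowerSeries.coeff (2 * h) (W92892cH53.ps u * F b) /
      ((x b) ^ (h + 1) * (ysum (2 * h) (x b) (F b) : ℂ))) 𝓕 (𝓝 0) := by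
  unfold spn at hu
  induction hu using Submodule.span_induction with
  | mem y hy =>
    obtain ⟨a, rfl⟩ := hy
    refine (hB a).congr fun b => ?_
    beta_reduce
    rw [W92892cH53.coeff_mul_congr (n := 2 * h) (f := W92892cH53.ps (W92892cH53.vec (2 * h) (F a)))
      (f' := F a) (g := F b) (g' := F b) (fun l hl => W92892cH53.coeff_ps_vec _ hl)
      (fun l hl => rfl) _ le_rfl]
  | zero =>
    simp only [W92892cH53.ps_zero, zero_mul, map_zero, zero_div]
    exact tendsto_const_nhds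
  | add y z _ _ hy hz =>
    have h1 := hy.add hz
    rw [add_zero] at h1
    refine h1.congr fun b => ?_
    rw [W92892cH53.ps_add, add_mul, map_add, add_div]
  | smul c y _ hy =>
    have h1 := hy.const_mul c
    rw [mul_zero] at h1
    refine h1.congr fun b => ?_
    rw [W92892cH53.ps_smul, mul_assoc, PowerSeries.coeff_C_mul, mul_div_assoc]

/-- The limit along an ultrafilter. -/
theorem sub_lim {G : PowerSeries ℂ} (hG : PowerSeries.coeff 0 G = 1)
    (hF : ∀ i, W92892c.IsType G (x i) (F i)) (𝓖 : Ultrafilter ι)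
    (hx : Tendsto (fun i => ‖x i‖) (𝓖 : Filter ι) atTop)
    (hB : ∀ a, Tendsto (fun b => PowerSeries.coeff (2 * h) (F a * F b) /
      ((x b) ^ (h + 1) * (ysum (2 * h) (x b) (F b) : ℂ))) (𝓖 : Filter ι) (𝓝 0)) :
    ∃ g : ℕ → ℂ, g 0 = 1 ∧ Ev (2 * h) g ∧ (∀ z ∈ zset h (IsOrd (spn h F)), g z = 0) ∧
      ∀ l ≤ 2 * h, Tendsto (fun b => PowerSeries.coeff l (F b) / x b ^ l) (𝓖 : Filter ι)
        (𝓝 (g l)) := by
  classical
  set Y : ι → ℝ := fun b => ysum (2 * h) (x b) (F b) with hY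
  have hY1 : ∀ b, 1 ≤ Y b := fun b => one_le_ysum hG (hF b) _
  have hYne : ∀ b, (Y b : ℂ) ≠ 0 := fun b => by
    have := hY1 b
    exact_mod_cast (by linarith : Y b ≠ 0)
  have hne : ∀ᶠ b in (𝓖 : Filter ι), x b ≠ 0 := by
    filter_upwards [hx.eventually_gt_atTop 0] with i hi
    intro h
    rw [h, norm_zero] at hi
    exact lt_irrefl _ hi
  let z : ι → Fin (2 * h + 1) → ℂ := fun b l =>
    (Y b : ℂ)⁻¹ * (PowerSeries.coeff (l : ℕ) (F b) / x b ^ (l : ℕ))
  have hball : ∀ b, z b ∈ Metric.closedBall (0 : Fin (2 * h + 1) → ℂ) 1 := by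
    intro b
    rw [mem_closedBall_zero_iff, pi_norm_le_iff_of_nonneg zero_le_one]
    intro l
    have h1 := le_ysum (n := 2 * h) (l := (l : ℕ)) (by omega) (x b) (F b)
    have h2 := hY1 b
    show ‖(Y b : ℂ)⁻¹ * (PowerSeries.coeff (l : ℕ) (F b) / x b ^ (l : ℕ))‖ ≤ 1
    rw [norm_mul, norm_inv, Complex.norm_real, Real.norm_eq_abs, abs_of_pos (by linarith),
      inv_mul_le_one₀ (by linarith)]
    exact h1
  obtain ⟨zi, -, hzi⟩ := (isCompact_closedBall (0 : Fin (2 * h + 1) → ℂ) 1).ultrafilter_le_nhds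
    (𝓖.map z) (by
      rw [Filter.le_principal_iff]
      exact Filter.mem_map.2 (Filter.univ_mem' hball))
  have hzl : ∀ l, Tendsto (fun b => z b l) (𝓖 : Filter ι) (𝓝 (zi l)) := by
    have h1 : Tendsto z (𝓖 : Filter ι) (𝓝 zi) := hzi
    exact tendsto_pi_nhds.1 h1
  let y : ℕ → ℂ := fun l => if hl : l < 2 * h + 1 then zi ⟨l, hl⟩ else 0
  have hy : ∀ l ≤ 2 * h, Tendsto (fun b => (Y b : ℂ)⁻¹ * (PowerSeries.coeff l (F b) / x b ^ l))
      (𝓖 : Filter ι) (𝓝 (y l)) := by
    intro l hl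
    have h1 := hzl ⟨l, by omega⟩
    have h2 : y l = zi ⟨l, by omega⟩ := by
      simp only [y]
      rw [dif_pos (by omega)]
    rw [h2]
    exact h1
  have hEv : Ev (2 * h) y := ev_of_tendsto hG hx hF hy
  have hpow : ∀ j, 1 ≤ j → Tendsto (fun b => (x b ^ j)⁻¹) (𝓖 : Filter ι) (𝓝 0) := by
    intro j hj
    rw [tendsto_zero_iff_norm_tendsto_zero]
    have h1 : Tendsto (fun b => ‖x b‖ ^ j) (𝓖 : Filter ι) atTop :=
      (tendsto_pow_atTop (by omega)).comp hx
    refine h1.inv_tendsto_atTop.congr fun b => ?_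
    simp [norm_inv, norm_pow]
  have hzero : ∀ w ∈ zset h (IsOrd (spn h F)), y w = 0 := by
    intro w hw
    rw [mem_zset] at hw
    rcases hw with ⟨hwh, hwP⟩ | ⟨o, hoh, hoP, rfl⟩
    · obtain ⟨φ, hφ, hφ1, hφ0⟩ := top_of_not_ord (spn h F) (i := w) (by omega) hwP
      have h1 : ∀ b, ∑ l : Fin (2 * h + 1), φ l * PowerSeries.coeff (l : ℕ) (F b) = 0 := fun b =>
        hφ _ (Submodule.subset_span ⟨b, rfl⟩)
      have h2 : ∀ l ∈ (Finset.univ : Finset (Fin (2 * h + 1))), Tendsto (fun b => (x b ^ w)⁻¹ *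
          (Y b : ℂ)⁻¹ * (φ l * PowerSeries.coeff (l : ℕ) (F b))) (𝓖 : Filter ι)
          (𝓝 (if l = ⟨w, by omega⟩ then y w else 0)) := by
        intro l _
        rcases lt_trichotomy (l : ℕ) w with h3 | h3 | h3
        · rw [if_neg (by intro h4; rw [h4] at h3; exact lt_irrefl _ h3)]
          have h4 := ((hy l (by omega)).mul (hpow (w - l) (by omega))).const_mul (φ l)
          rw [mul_zero, mul_zero] at h4
          refine h4.congr' ?_
          filter_upwards [hne] with b hb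
          have e1 : x b ^ w = x b ^ (w - l) * x b ^ (l : ℕ) := by
            rw [← pow_add]
            congr 1
            omega
          rw [e1, mul_inv]
          ring
        · have h4 : l = ⟨w, by omega⟩ := Fin.ext h3
          rw [if_pos h4]
          refine (hy w (by omega)).congr fun b => ?_
          rw [h4, hφ1]
          ring
        · rw [if_neg (by intro h4; rw [h4] at h3; exact lt_irrefl _ h3), hφ0 l h3]
          simp only [zero_mul, mul_zero]
          exact tendsto_const_nhds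
      have h3 := tendsto_finsetSum _ h2
      rw [Finset.sum_ite_eq' Finset.univ (⟨w, by omega⟩ : Fin (2 * h + 1)),
        if_pos (Finset.mem_univ _)] at h3
      refine tendsto_nhds_unique h3 ?_
      refine (tendsto_const_nhds (x := (0 : ℂ))).congr fun b => ?_
      rw [← Finset.mul_sum, h1, mul_zero]
    · obtain ⟨u, hu, ho, huo, hu0⟩ := hoP
      have h1 := span_small hB u hu
      -- the coefficient as a sum
      have h2 : ∀ l ∈ Finset.range (2 * h + 1), Tendsto (fun b => (x b ^ (2 * h - o))⁻¹ *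
          (Y b : ℂ)⁻¹ * (PowerSeries.coeff l (W92892cH53.ps u) *
            PowerSeries.coeff (2 * h - l) (F b))) (𝓖 : Filter ι)
          (𝓝 (if l = o then u ⟨o, ho⟩ * y (2 * h - o) else 0)) := by
        intro l hl
        rw [Finset.mem_range] at hl
        rw [W92892cH53.coeff_ps, dif_pos hl]
        rcases lt_trichotomy l o with h3 | h3 | h3
        · rw [if_neg (by omega), hu0 ⟨l, hl⟩ h3]
          simp only [zero_mul, mul_zero]
          exact tendsto_const_nhds
        · subst h3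
          rw [if_pos rfl]
          refine ((hy (2 * h - l) (by omega)).const_mul (u ⟨l, hl⟩)).congr fun b => ?_
          ring
        · rw [if_neg (by omega)]
          have h4 := ((hy (2 * h - l) (by omega)).mul (hpow (l - o) (by omega))).const_mul
            (u ⟨l, hl⟩)
          rw [mul_zero, mul_zero] at h4
          refine h4.congr' ?_
          filter_upwards [hne] with b hb
          have e1 : x b ^ (2 * h - o) = x b ^ (l - o) * x b ^ (2 * h - l) := by
            rw [← pow_add]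
            congr 1
            omega
          rw [e1, mul_inv]
          ring
      have h3 := tendsto_finsetSum _ h2
      rw [Finset.sum_ite_eq' (Finset.range (2 * h + 1)) o, if_pos (Finset.mem_range.2 ho)] at h3
      have h4 : Tendsto (fun b => ∑ l ∈ Finset.range (2 * h + 1), (x b ^ (2 * h - o))⁻¹ *
          (Y b : ℂ)⁻¹ * (PowerSeries.coeff l (W92892cH53.ps u) *
            PowerSeries.coeff (2 * h - l) (F b))) (𝓖 : Filter ι) (𝓝 0) := by
        have h5 : Tendsto (fun b => PowerSeries.coeff (2 * h) (W92892cH53.ps u * F b) /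
            ((x b) ^ (h + 1) * (Y b : ℂ)) * (x b ^ (h - 1 - o))⁻¹) (𝓖 : Filter ι) (𝓝 0) := by
          rcases Nat.eq_zero_or_pos (h - 1 - o) with h6 | h6
          · rw [h6]
            simpa using h1
          · have h7 := h1.mul (hpow (h - 1 - o) h6)
            rw [mul_zero] at h7
            exact h7
        refine h5.congr fun b => ?_
        rw [← Finset.mul_sum, PowerSeries.coeff_mul,
          Finset.Nat.sum_antidiagonal_eq_sum_range_succ (fun a c =>
            PowerSeries.coeff a (W92892cH53.ps u) * PowerSeries.coeff c (F b)) (2 * h)]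
        have e1 : x b ^ (2 * h - o) = x b ^ (h + 1) * x b ^ (h - 1 - o) := by
          rw [← pow_add]
          congr 1
          omega
        rw [e1, mul_inv, div_eq_mul_inv, mul_inv]
        ring
      have h5 := tendsto_nhds_unique h3 h4
      exact (mul_eq_zero.1 h5).resolve_left huo
  -- not all limits vanish
  have hsum : ∑ l ∈ Finset.range (2 * h + 1), ‖y l‖ = 1 := by
    have h1 : ∀ l ∈ Finset.range (2 * h + 1), Tendsto (fun b => ‖(Y b : ℂ)⁻¹ *
        (PowerSeries.coeff l (F b) / x b ^ l)‖) (𝓖 : Filter ι) (𝓝 ‖y l‖) := fun l hl =>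
      (hy l (by rw [Finset.mem_range] at hl; omega)).norm
    have h2 := tendsto_finsetSum _ h1
    refine tendsto_nhds_unique h2 ?_
    refine (tendsto_const_nhds (x := (1 : ℝ))).congr fun b => ?_
    have h3 := hY1 b
    have h4 : ∀ l ∈ Finset.range (2 * h + 1), ‖(Y b : ℂ)⁻¹ *
        (PowerSeries.coeff l (F b) / x b ^ l)‖ =
        (Y b)⁻¹ * ‖PowerSeries.coeff l (F b) / x b ^ l‖ := by
      intro l _
      rw [norm_mul, norm_inv, Complex.norm_real, Real.norm_eq_abs, abs_of_pos (by linarith)]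
    rw [Finset.sum_congr rfl h4, ← Finset.mul_sum]
    show 1 = (Y b)⁻¹ * Y b
    rw [inv_mul_cancel₀ (by linarith)]
  have hcount := count_le hG hx hF (spn h F) (fun i => Submodule.subset_span ⟨i, rfl⟩)
  have hy0 : y 0 ≠ 0 := by
    intro h0
    have h1 := hEv.eq_zero h0 (zset h (IsOrd (spn h F))) (zset_sub h _) (zset_card h _).ge
      (zset_count h _ hcount) hzero
    rw [Finset.sum_eq_zero] at hsum
    · exact zero_ne_one hsum
    · intro l hl
      rw [Finset.mem_range] at hl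
      rw [h1 l (by omega), norm_zero]
  refine ⟨fun l => (y 0)⁻¹ * y l, inv_mul_cancel₀ hy0, ?_, ?_, ?_⟩
  · intro m hm hodd
    have h1 := hEv m hm hodd
    have h2 : ∀ l ∈ Finset.range (m + 1), (y 0)⁻¹ * y l *
        ((-1) ^ (m - l) / ((m - l).factorial : ℂ)) =
        (y 0)⁻¹ * (y l * ((-1) ^ (m - l) / ((m - l).factorial : ℂ))) := fun l _ => by ring
    rw [Finset.sum_congr rfl h2, ← Finset.mul_sum, h1, mul_zero]
  · intro w hw
    beta_reduce
    rw [hzero w hw, mul_zero]
  · intro l hl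
    have h1 := ((hy 0 (by omega)).inv₀ hy0).mul (hy l hl)
    refine h1.congr fun b => ?_
    rw [coeff_type_zero hG (hF b), pow_zero, div_one, mul_one, inv_inv, ← mul_assoc,
      mul_inv_cancel₀ (hYne b), one_mul]

/-- The shape of a class. -/
theorem shape {G : PowerSeries ℂ} (hG : PowerSeries.coeff 0 G = 1)
    (hF : ∀ i, W92892c.IsType G (x i) (F i)) {𝓕 : Filter ι} [𝓕.NeBot]
    (hx : Tendsto (fun i => ‖x i‖) 𝓕 atTop)
    (hB : ∀ a, Tendsto (fun b => PowerSeries.coeff (2 * h) (F a * F b) /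
      ((x b) ^ (h + 1) * (ysum (2 * h) (x b) (F b) : ℂ))) 𝓕 (𝓝 0)) :
    ∃ g : ℕ → ℂ, g 0 = 1 ∧ Ev (2 * h) g ∧
      ∀ l ≤ 2 * h, Tendsto (fun b => PowerSeries.coeff l (F b) / x b ^ l) 𝓕 (𝓝 (g l)) := by
  classical
  have key : ∀ 𝓖 : Ultrafilter ι, (𝓖 : Filter ι) ≤ 𝓕 → ∃ g : ℕ → ℂ, g 0 = 1 ∧ Ev (2 * h) g ∧
      (∀ z ∈ zset h (IsOrd (spn h F)), g z = 0) ∧
      ∀ l ≤ 2 * h, Tendsto (fun b => PowerSeries.coeff l (F b) / x b ^ l) (𝓖 : Filter ι)
        (𝓝 (g l)) := fun 𝓖 h𝓖 =>
    sub_lim hG hF 𝓖 (hx.mono_left h𝓖) fun a => (hB a).mono_left h𝓖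
  obtain ⟨g, hg0, hgE, hgz, hgl⟩ := key (Ultrafilter.of 𝓕) (Ultrafilter.of_le 𝓕)
  refine ⟨g, hg0, hgE, fun l hl => ?_⟩
  rw [tendsto_iff_ultrafilter]
  intro 𝓖 h𝓖
  obtain ⟨g', hg0', hgE', hgz', hgl'⟩ := key 𝓖 h𝓖
  have hcount := count_le hG hx hF (spn h F) (fun i => Submodule.subset_span ⟨i, rfl⟩)
  have hd : Ev (2 * h) (fun l => g' l - g l) := by
    intro m hm hodd
    have h1 := hgE m hm hodd
    have h2 := hgE' m hm hodd
    have h3 : ∀ l ∈ Finset.range (m + 1), (g' l - g l) *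
        ((-1) ^ (m - l) / ((m - l).factorial : ℂ)) =
        g' l * ((-1) ^ (m - l) / ((m - l).factorial : ℂ)) -
          g l * ((-1) ^ (m - l) / ((m - l).factorial : ℂ)) := fun l _ => by ring
    rw [Finset.sum_congr rfl h3, Finset.sum_sub_distrib, h1, h2, sub_zero]
  have h1 := hd.eq_zero (by beta_reduce; rw [hg0, hg0', sub_self])
    (zset h (IsOrd (spn h F))) (zset_sub h _) (zset_card h _).ge
    (zset_count h _ hcount) (fun z hz => by beta_reduce; rw [hgz z hz, hgz' z hz, sub_self]) l hl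
  have h2 : g l = g' l := (sub_eq_zero.1 h1).symm
  rw [h2]
  exact hgl' l hl

end W92892cR
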