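import Pool.Agent.W_92892c_h14r.Shape
import Pool.Agent.W_92892c_h14r.LimAlg
import Pool.Agent.W_92892c_h53.NoH1

/-!
Shapes of the series of a class with quotients `o(size)`.
-/

namespace W92892cR

open Finset Filter Topology

/-- Taylor data, normalised at `0`, with quotients `o(size)` for cosets with two and four
elements. -/
structure Rob {D : Type*} [AddCommGroup D] (R : PowerSeries ℂ) (lam : D → ℝ)
    (f : D → PowerSeries ℂ) (k : D → ℕ) : Prop where
  odd : ∀ d j, Odd j → PowerSeries.coeff j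
    (f d * PowerSeries.rescale (lam d : ℂ) (PowerSeries.exp ℂ) * R) = 0
  zero : ∀ d, PowerSeries.coeff 0 (f d) = 1
  grow : Tendsto lam cofinite atTop
  pair : ∀ a, ∀ ε : ℝ, 0 < ε → ∃ B : ℝ, ∀ b, b ≠ a →
    ‖PowerSeries.coeff (k a + k b) (f a * f b)‖ ≤
      (ε * |lam b| + B) * ‖PowerSeries.coeff (k b) (f b)‖
  four : ∀ a, ∀ ε : ℝ, 0 < ε → ∃ B : ℝ, ∀ b c, a ≠ b → a ≠ c → b ≠ c →
    ‖PowerSeries.coeff (k a + k b + k c + k (a + b + c)) (f a * f b * f c * f (a + b + c))‖ ≤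
      (ε * (|lam b| + |lam c| + |lam (a + b + c)|) + B) *
        (‖PowerSeries.coeff (k b) (f b)‖ * ‖PowerSeries.coeff (k c) (f c)‖ *
          ‖PowerSeries.coeff (k (a + b + c)) (f (a + b + c))‖)

theorem small_of_bound {α : Type*} {𝓕 : Filter α} {x : α → ℂ}
    (hx : Tendsto (fun a => ‖x a‖) 𝓕 atTop) {N : α → ℂ} {Y : α → ℝ} {j : ℕ} (hY : ∀ a, 0 < Y a)
    (C : ℝ) (hC : 0 ≤ C) (hN : ∀ ε : ℝ, 0 < ε → ∃ B : ℝ, ∀ᶠ a in 𝓕,
      ‖N a‖ ≤ (ε * ‖x a‖ + B) * (C * ‖x a‖ ^ j * Y a)) :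
    Tendsto (fun a => N a / ((x a) ^ (j + 1) * (Y a : ℂ))) 𝓕 (𝓝 0) := by
  rw [Metric.tendsto_nhds]
  intro δ hδ
  obtain ⟨B, hB⟩ := hN (δ / (2 * (C + 1))) (by positivity)
  filter_upwards [hB, hx.eventually_gt_atTop (2 * |B| * (C + 1) / δ + 1)] with a ha1 ha2
  have hx0 : 0 < ‖x a‖ := by
    have : 0 ≤ 2 * |B| * (C + 1) / δ := by positivity
    linarith
  have hYa := hY a
  have h7 : 2 * |B| * (C + 1) / δ < ‖x a‖ := by linarith
  rw [div_lt_iff₀ hδ] at h7
  rw [dist_zero_right, norm_div, norm_mul, norm_pow, Complex.norm_real, Real.norm_eq_abs,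
    abs_of_pos hYa, div_lt_iff₀ (by positivity)]
  have h1 : (δ / (2 * (C + 1)) * ‖x a‖ + B) * C < δ * ‖x a‖ := by
    have h2 : δ / (2 * (C + 1)) * ‖x a‖ * C ≤ δ / 2 * ‖x a‖ := by
      have h3 : δ / (2 * (C + 1)) * C ≤ δ / 2 := by
        rw [div_mul_eq_mul_div, div_le_div_iff₀ (by positivity) (by norm_num)]
        nlinarith
      calc δ / (2 * (C + 1)) * ‖x a‖ * C = δ / (2 * (C + 1)) * C * ‖x a‖ := by ring
        _ ≤ _ := mul_le_mul_of_nonneg_right h3 hx0.le
    have h3 : B * C ≤ |B| * (C + 1) := by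
      have h4 := le_abs_self B
      have h5 := abs_nonneg B
      nlinarith
    nlinarith
  calc ‖N a‖ ≤ (δ / (2 * (C + 1)) * ‖x a‖ + B) * (C * ‖x a‖ ^ j * Y a) := ha1
    _ = (δ / (2 * (C + 1)) * ‖x a‖ + B) * C * (‖x a‖ ^ j * Y a) := by ring
    _ < δ * ‖x a‖ * (‖x a‖ ^ j * Y a) := mul_lt_mul_of_pos_right h1 (by positivity)
    _ = δ * (‖x a‖ ^ (j + 1) * Y a) := by ring

section

variable {D : Type*} [AddCommGroup D] {R : PowerSeries ℂ} {lam : D → ℝ} {f : D → PowerSeries ℂ}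
  {k : D → ℕ}

theorem Rob.isType (H : Rob R lam f k) (hR : PowerSeries.coeff 0 R = 1) (d : D) :
    W92892c.IsType R⁻¹ ((-lam d : ℝ) : ℂ) (f d) := by
  have h1 := W92892c.isType_normal hR (H.odd d) (by rw [H.zero d]; exact one_ne_zero)
  rwa [H.zero d, inv_one, map_one, one_mul] at h1

theorem coeff_inv_zero (hR : PowerSeries.coeff 0 R = 1) : PowerSeries.coeff 0 R⁻¹ = 1 := by
  rw [PowerSeries.coeff_zero_eq_constantCoeff_apply, PowerSeries.constantCoeff_inv,
    ← PowerSeries.coeff_zero_eq_constantCoeff_apply, hR, inv_one]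

theorem norm_neg_ofReal (t : ℝ) : ‖((-t : ℝ) : ℂ)‖ = |t| := by
  rw [Complex.norm_real, Real.norm_eq_abs, abs_neg]

theorem Rob.norm_tendsto (H : Rob R lam f k) {α : Type*} {𝓕 : Filter α} {w : α → D}
    (hw : Tendsto w 𝓕 cofinite) :
    Tendsto (fun a => ‖((-lam (w a) : ℝ) : ℂ)‖) 𝓕 atTop := by
  have h2 := tendsto_abs_atTop_atTop.comp (H.grow.comp hw)
  exact h2.congr fun i => (norm_neg_ofReal _).symm

/-- Step 1: the distinguished coefficients have the expected size. -/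
theorem Rob.step1 (H : Rob R lam f k) (hR : PowerSeries.coeff 0 R = 1) (κ : ℕ) :
    ∃ C : ℝ, 0 ≤ C ∧ ∀ᶠ b in (cofinite : Filter D), k b = κ →
      ‖PowerSeries.coeff κ (f b)‖ ≤ C * |lam b| ^ κ := by
  classical
  by_cases hfin : {d | k d = κ}.Finite
  · refine ⟨0, le_rfl, ?_⟩
    filter_upwards [hfin.compl_mem_cofinite] with b hb hk
    exact absurd hk hb
  have hinf : {d | k d = κ}.Infinite := hfin
  have : Infinite {d // k d = κ} := hinf.to_subtype
  have hval : Tendsto (fun b : {d // k d = κ} => (b : D)) cofinite cofinite :=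
    Subtype.val_injective.tendsto_cofinite
  obtain ⟨g, -, -, hg⟩ := shape (h := κ) (ι := {d // k d = κ}) (coeff_inv_zero hR)
    (x := fun b => ((-lam (b : D) : ℝ) : ℂ)) (F := fun b => f (b : D))
    (fun b => H.isType hR b) (H.norm_tendsto hval) (by
      intro a
      refine small_of_bound (H.norm_tendsto hval)
        (fun b => lt_of_lt_of_le one_pos (one_le_ysum (coeff_inv_zero hR) (H.isType hR b) _))
        1 zero_le_one fun ε hε => ?_
      obtain ⟨B, hB⟩ := H.pair a ε hε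
      refine ⟨max B 0, ?_⟩
      have h1 : ∀ᶠ b in (cofinite : Filter {d // k d = κ}), b ≠ a := by
        rw [eventually_cofinite]
        simp
      filter_upwards [h1, (H.norm_tendsto hval).eventually_gt_atTop 0] with b hb hb0
      have h2 := hB b fun h => hb (Subtype.ext h)
      rw [a.2, b.2] at h2
      rw [show 2 * κ = κ + κ by ring]
      have h3 := le_ysum (n := κ + κ) (l := κ) (by omega) ((-lam (b : D) : ℝ) : ℂ) (f (b : D))
      rw [norm_div, norm_pow, div_le_iff₀ (by positivity)] at h3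
      rw [norm_neg_ofReal] at h3 hb0 ⊢
      have h4 : 0 ≤ ε * |lam (b : D)| + max B 0 := by positivity
      calc ‖PowerSeries.coeff (κ + κ) (f (a : D) * f (b : D))‖
          ≤ (ε * |lam (b : D)| + B) * ‖PowerSeries.coeff κ (f (b : D))‖ := h2
        _ ≤ (ε * |lam (b : D)| + max B 0) * ‖PowerSeries.coeff κ (f (b : D))‖ := by
            gcongr
            exact le_max_left _ _
        _ ≤ (ε * |lam (b : D)| + max B 0) * (ysum (κ + κ) ((-lam (b : D) : ℝ) : ℂ) (f (b : D)) *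
            |lam (b : D)| ^ κ) := mul_le_mul_of_nonneg_left h3 h4
        _ = _ := by ring)
  have h1 := (hg κ (by omega)).norm.eventually_lt_const (lt_add_one ‖g κ‖)
  refine ⟨‖g κ‖ + 1, by positivity, ?_⟩
  have h2 := h1.and ((H.norm_tendsto hval).eventually_gt_atTop 0)
  rw [← Subtype.val_injective.comap_cofinite_eq, eventually_comap] at h2
  filter_upwards [h2] with b hb hk
  obtain ⟨h3, h4⟩ := hb ⟨b, hk⟩ rfl
  rw [norm_div, norm_pow] at h3
  simp only at h3 h4
  rw [norm_neg_ofReal] at h3 h4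
  rw [div_lt_iff₀ (by positivity)] at h3
  exact h3.le

end

end W92892cR
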