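import Pool.Agent.W_92892c_h14r.Steps

/-!
Steps 2 and 3: products of two series, and single series up to a higher order.
-/

namespace W92892cR

open Finset Filter Topology

variable {D : Type*} [AddCommGroup D] {R : PowerSeries ℂ} {lam : D → ℝ} {f : D → PowerSeries ℂ}
  {k : D → ℕ}

theorem coeff_zero_mul_one {P Q : PowerSeries ℂ} (hP : PowerSeries.coeff 0 P = 1)
    (hQ : PowerSeries.coeff 0 Q = 1) : PowerSeries.coeff 0 (P * Q) = 1 := by
  rw [PowerSeries.coeff_zero_eq_constantCoeff_apply] at hP hQ ⊢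
  rw [map_mul, hP, hQ, one_mul]

/-- Step 2. -/
theorem Rob.step2 (H : Rob R lam f k) (hR : PowerSeries.coeff 0 R = 1)
    (hD : ∀ d : D, d + d = 0) {v : D} (hv : v ≠ 0) (κ : ℕ) :
    ∃ h : ℕ → ℂ, ∀ l ≤ 4 * κ, Tendsto (fun b => PowerSeries.coeff l (f b * f (b + v)) /
      ((-(lam b + lam (b + v)) : ℝ) : ℂ) ^ l) (cofinite ⊓ 𝓟 {b | k b = κ ∧ k (b + v) = κ})
      (𝓝 (h l)) := by
  classical
  by_cases hfin : {b | k b = κ ∧ k (b + v) = κ}.Finite
  · refine ⟨0, fun l _ => ?_⟩
    have h1 : (cofinite : Filter D) ⊓ 𝓟 {b | k b = κ ∧ k (b + v) = κ} = ⊥ :=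
      disjoint_iff.1 (Filter.disjoint_principal_right.2 hfin.compl_mem_cofinite)
    rw [h1]
    exact tendsto_bot
  have hinf : {b | k b = κ ∧ k (b + v) = κ}.Infinite := hfin
  have : Infinite {b // k b = κ ∧ k (b + v) = κ} := hinf.to_subtype
  have hval : Tendsto (fun b : {b // k b = κ ∧ k (b + v) = κ} => (b : D)) cofinite cofinite :=
    Subtype.val_injective.tendsto_cofinite
  have hval' : Tendsto (fun b : {b // k b = κ ∧ k (b + v) = κ} => (b : D) + v) cofinite
      cofinite := (add_left_injective v).tendsto_cofinite.comp hval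
  have hG : PowerSeries.coeff 0 (R⁻¹ * R⁻¹) = 1 :=
    coeff_zero_mul_one (coeff_inv_zero hR) (coeff_inv_zero hR)
  have htype : ∀ b : {b // k b = κ ∧ k (b + v) = κ}, W92892c.IsType (R⁻¹ * R⁻¹)
      ((-(lam (b : D) + lam ((b : D) + v)) : ℝ) : ℂ) (f (b : D) * f ((b : D) + v)) := by
    intro b
    have h1 := W92892cH53.IsType.mul (H.isType hR (b : D)) (H.isType hR ((b : D) + v))
    have e1 : ((-(lam (b : D) + lam ((b : D) + v)) : ℝ) : ℂ) =
        ((-lam (b : D) : ℝ) : ℂ) + ((-lam ((b : D) + v) : ℝ) : ℂ) := by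
      push_cast
      ring
    rw [e1]
    exact h1
  have hg1 := H.grow.comp hval
  have hg2 := H.grow.comp hval'
  have hnorm : Tendsto (fun b : {b // k b = κ ∧ k (b + v) = κ} =>
      ‖((-(lam (b : D) + lam ((b : D) + v)) : ℝ) : ℂ)‖) cofinite atTop := by
    have h2 := tendsto_abs_atTop_atTop.comp (hg1.atTop_add_atTop hg2)
    refine h2.congr fun i => ?_
    rw [norm_neg_ofReal]
    rfl
  obtain ⟨C, hC0, hC⟩ := H.step1 hR κ
  obtain ⟨g, -, -, hg⟩ := shape (h := 2 * κ) (ι := {b // k b = κ ∧ k (b + v) = κ}) hG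
    (x := fun b => ((-(lam (b : D) + lam ((b : D) + v)) : ℝ) : ℂ))
    (F := fun b => f (b : D) * f ((b : D) + v)) htype hnorm (by
      intro a
      refine small_of_bound hnorm
        (fun b => lt_of_lt_of_le one_pos (one_le_ysum hG (htype b) _))
        (‖PowerSeries.coeff κ (f ((a : D) + v))‖ * C ^ 2) (by positivity) fun ε hε => ?_
      obtain ⟨B, hB⟩ := H.four a ε hε
      refine ⟨ε * |lam ((a : D) + v)| + |B|, ?_⟩
      have h1 : ∀ᶠ b : {b // k b = κ ∧ k (b + v) = κ} in cofinite, (b : D) ≠ a :=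
        hval.eventually (p := fun d => d ≠ (a : D)) (by rw [eventually_cofinite]; simp)
      have h2 : ∀ᶠ b : {b // k b = κ ∧ k (b + v) = κ} in cofinite, (b : D) ≠ (a : D) + v :=
        hval.eventually (p := fun d => d ≠ (a : D) + v) (by rw [eventually_cofinite]; simp)
      filter_upwards [h1, h2, hval.eventually hC, hval'.eventually hC,
        hg1.eventually_gt_atTop 0, hg2.eventually_gt_atTop 0] with b hb1 hb2 hb3 hb4 hb5 hb6
      have e1 : (a : D) + ((a : D) + v) + (b : D) = (b : D) + v := by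
        rw [show (a : D) + ((a : D) + v) + (b : D) = ((a : D) + (a : D)) + ((b : D) + v) by abel,
          hD, zero_add]
      have hne : (a : D) ≠ (a : D) + v := fun h => hv (left_eq_add.1 h)
      have h3 := hB ((a : D) + v) b hne (Ne.symm hb1) (Ne.symm hb2)
      rw [e1, a.2.1, a.2.2, b.2.1, b.2.2] at h3
      have h4 := hb3 b.2.1
      have h5 := hb4 b.2.2
      simp only [Function.comp] at hb5 hb6
      have hl1 : |lam (b : D)| = lam (b : D) := abs_of_pos hb5
      have hl2 : |lam ((b : D) + v)| = lam ((b : D) + v) := abs_of_pos hb6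
      have hx1 : ‖((-(lam (b : D) + lam ((b : D) + v)) : ℝ) : ℂ)‖ =
          lam (b : D) + lam ((b : D) + v) := by
        rw [norm_neg_ofReal, abs_of_pos (by linarith)]
      have hY := one_le_ysum hG (htype b) (2 * (2 * κ))
      rw [hl1] at h4
      rw [hl2] at h5
      rw [hl1, hl2] at h3
      rw [hx1]
      rw [show 2 * (2 * κ) = κ + κ + κ + κ by ring] at hY ⊢
      rw [show f (a : D) * f ((a : D) + v) * (f (b : D) * f ((b : D) + v)) =
        f (a : D) * f ((a : D) + v) * f (b : D) * f ((b : D) + v) by ring]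
      generalize ysum (κ + κ + κ + κ) ((-(lam (b : D) + lam ((b : D) + v)) : ℝ) : ℂ)
        (f (b : D) * f ((b : D) + v)) = Y at hY ⊢
      generalize ‖PowerSeries.coeff (κ + κ + κ + κ)
        (f (a : D) * f ((a : D) + v) * f (b : D) * f ((b : D) + v))‖ = N at h3 ⊢
      have hP0 := norm_nonneg (PowerSeries.coeff κ (f ((a : D) + v)))
      have hQ0 := norm_nonneg (PowerSeries.coeff κ (f (b : D)))
      have hS0 := norm_nonneg (PowerSeries.coeff κ (f ((b : D) + v)))
      generalize ‖PowerSeries.coeff κ (f ((a : D) + v))‖ = P at h3 hP0 ⊢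
      generalize ‖PowerSeries.coeff κ (f (b : D))‖ = Q at h3 h4 hQ0
      generalize ‖PowerSeries.coeff κ (f ((b : D) + v))‖ = S at h3 h5 hS0
      have hb5' : 0 < lam (b : D) := hb5
      have hb6' : 0 < lam ((b : D) + v) := hb6
      generalize lam (b : D) = s at h3 h4 hb5' ⊢
      generalize lam ((b : D) + v) = t at h3 h5 hb6' ⊢
      have hs0 : 0 < s := hb5'
      have ht0 : 0 < t := hb6'
      have h6 : Q * S ≤ C ^ 2 * (s + t) ^ (2 * κ) := by
        have h7 : s ^ κ ≤ (s + t) ^ κ := pow_le_pow_left₀ hs0.le (by linarith) κ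
        have h8 : t ^ κ ≤ (s + t) ^ κ := pow_le_pow_left₀ ht0.le (by linarith) κ
        have h9 : 0 ≤ (s + t) ^ κ := by positivity
        calc Q * S ≤ (C * s ^ κ) * (C * t ^ κ) := mul_le_mul h4 h5 hS0 (by positivity)
          _ ≤ (C * (s + t) ^ κ) * (C * (s + t) ^ κ) := by gcongr
          _ = _ := by ring
      have h10 : 0 ≤ ε * (s + t) + (ε * |lam ((a : D) + v)| + |B|) := by positivity
      have h11 : ε * (|lam ((a : D) + v)| + s + t) + B ≤
          ε * (s + t) + (ε * |lam ((a : D) + v)| + |B|) := by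
        have := le_abs_self B
        linarith
      have h12 : 0 ≤ P * (C ^ 2 * (s + t) ^ (2 * κ)) := by positivity
      calc N ≤ (ε * (|lam ((a : D) + v)| + s + t) + B) * (P * Q * S) := h3
        _ ≤ (ε * (s + t) + (ε * |lam ((a : D) + v)| + |B|)) * (P * Q * S) :=
            mul_le_mul_of_nonneg_right h11 (by positivity)
        _ = (ε * (s + t) + (ε * |lam ((a : D) + v)| + |B|)) * (P * (Q * S)) := by ring
        _ ≤ (ε * (s + t) + (ε * |lam ((a : D) + v)| + |B|)) *
              (P * (C ^ 2 * (s + t) ^ (2 * κ))) := by gcongr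
        _ = (ε * (s + t) + (ε * |lam ((a : D) + v)| + |B|)) *
              (P * (C ^ 2 * (s + t) ^ (2 * κ)) * 1) := by ring
        _ ≤ (ε * (s + t) + (ε * |lam ((a : D) + v)| + |B|)) *
              (P * (C ^ 2 * (s + t) ^ (2 * κ)) * Y) :=
            mul_le_mul_of_nonneg_left (mul_le_mul_of_nonneg_left hY h12) h10
        _ = _ := by ring)
  refine ⟨g, fun l hl => ?_⟩
  have h1 := hg l (by omega)
  rw [← Subtype.val_injective.comap_cofinite_eq] at h1
  have h2 : Tendsto ((fun b : D => PowerSeries.coeff l (f b * f (b + v)) /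
      ((-(lam b + lam (b + v)) : ℝ) : ℂ) ^ l) ∘ (fun b : {b // k b = κ ∧ k (b + v) = κ} => (b : D)))
      (comap (fun b : {b // k b = κ ∧ k (b + v) = κ} => (b : D)) cofinite) (𝓝 (g l)) := h1
  rw [← tendsto_map'_iff] at h2
  have h3 := Filter.subtype_coe_map_comap {b | k b = κ ∧ k (b + v) = κ} (cofinite : Filter D)
  rw [← h3]
  exact h2

end W92892cR
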