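import Pool.Agent.W_92892c_h14r.Steps2

/-!
Step 3: the shape of a single series up to the order `4 κ`.
-/

namespace W92892cR

open Finset Filter Topology

variable {D : Type*} [AddCommGroup D] {R : PowerSeries ℂ} {lam : D → ℝ} {f : D → PowerSeries ℂ}
  {k : D → ℕ}

lemma ratio_tendsto {α : Type*} {𝓕 : Filter α} {s t : α → ℝ} (hs : Tendsto s 𝓕 atTop) (δ : ℝ)
    (ht : ∀ᶠ a in 𝓕, t a = 2 * s a + δ) :
    Tendsto (fun a => ((-(t a) : ℝ) : ℂ) / ((-(s a) : ℝ) : ℂ)) 𝓕 (𝓝 2) := by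
  have h1 : Tendsto (fun a => 2 + δ * (s a)⁻¹) 𝓕 (𝓝 (2 + δ * 0)) :=
    (hs.inv_tendsto_atTop.const_mul δ).const_add 2
  rw [mul_zero, add_zero] at h1
  have h2 := (Complex.continuous_ofReal.tendsto (2 : ℝ)).comp h1
  have h3 : Tendsto (fun a => ((2 + δ * (s a)⁻¹ : ℝ) : ℂ)) 𝓕 (𝓝 2) := by
    have h4 : ((2 : ℝ) : ℂ) = 2 := by norm_num
    rw [h4] at h2
    exact h2
  refine h3.congr' ?_
  filter_upwards [ht, hs.eventually_gt_atTop 0] with a ha hs0
  rw [← Complex.ofReal_div, ha]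
  congr 1
  field_simp

/-- Step 3. -/
theorem Rob.step3 (H : Rob R lam f k) (hR : PowerSeries.coeff 0 R = 1)
    (hD : ∀ d : D, d + d = 0) (κ : ℕ) {v v' : D} (hv : v ≠ 0) (hv' : v' ≠ 0) (hvv : v + v' ≠ 0)
    {α : Type*} {𝓕 : Filter α} [𝓕.NeBot] {w : α → D} (hw : Tendsto w 𝓕 cofinite)
    (hk : ∀ᶠ a in 𝓕, k (w a) = κ ∧ k (w a + v) = κ ∧ k (w a + v') = κ) (δ δ' : ℝ)
    (hl : ∀ᶠ a in 𝓕, lam (w a + v) = lam (w a) + δ ∧ lam (w a + v') = lam (w a) + δ') :
    ∃ g : ℕ → ℂ, g 0 = 1 ∧ Ev (4 * κ) g ∧ ∀ l ≤ 4 * κ,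
      Tendsto (fun a => PowerSeries.coeff l (f (w a)) / ((-lam (w a) : ℝ) : ℂ) ^ l) 𝓕
        (𝓝 (g l)) := by
  classical
  have hlw := H.grow.comp hw
  have hxn := H.norm_tendsto hw
  have hx0 : ∀ᶠ a in 𝓕, ((-lam (w a) : ℝ) : ℂ) ≠ 0 := by
    filter_upwards [hxn.eventually_gt_atTop 0] with a ha h
    rw [h, norm_zero] at ha
    exact lt_irrefl _ ha
  have hwv : ∀ u : D, Tendsto (fun a => w a + u) 𝓕 cofinite := fun u =>
    (add_left_injective u).tendsto_cofinite.comp hw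
  -- the product of two series
  have hprod : ∀ u : D, u ≠ 0 → ∀ ε : ℝ, (∀ᶠ a in 𝓕, k (w a) = κ ∧ k (w a + u) = κ) →
      (∀ᶠ a in 𝓕, lam (w a + u) = lam (w a) + ε) → ∃ p : ℕ → ℂ, ∀ l ≤ 4 * κ,
      Tendsto (fun a => PowerSeries.coeff l (f (w a) * f (w a + u)) /
        ((-lam (w a) : ℝ) : ℂ) ^ l) 𝓕 (𝓝 (p l)) := by
    intro u hu ε hku hlu
    obtain ⟨h, hh⟩ := H.step2 hR hD hu κ
    have h1 : Tendsto w 𝓕 (cofinite ⊓ 𝓟 {b | k b = κ ∧ k (b + u) = κ}) := by
      rw [tendsto_inf, tendsto_principal]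
      exact ⟨hw, hku⟩
    have h2 : ∀ᶠ a in 𝓕, ((-(lam (w a) + lam (w a + u)) : ℝ) : ℂ) ≠ 0 := by
      filter_upwards [hlw.eventually_gt_atTop 0,
        (H.grow.comp (hwv u)).eventually_gt_atTop 0] with a ha hb
      have hp : (-(lam (w a) + lam (w a + u)) : ℝ) ≠ 0 := by
        have ha' : 0 < lam (w a) := ha
        have hb' : 0 < lam (w a + u) := hb
        linarith
      exact_mod_cast hp
    have h3 : Tendsto (fun a => ((-(lam (w a) + lam (w a + u)) : ℝ) : ℂ) /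
        ((-lam (w a) : ℝ) : ℂ)) 𝓕 (𝓝 2) := by
      refine ratio_tendsto (s := fun a => lam (w a)) (t := fun a => lam (w a) + lam (w a + u))
        hlw ε ?_
      filter_upwards [hlu] with a ha
      rw [ha]
      ring
    have h4 := lim_scale (n := 4 * κ) (F := fun a => f (w a) * f (w a + u)) hx0 h2 h3
      (g := h) (fun l hl => (hh l hl).comp h1)
    exact ⟨_, h4⟩
  obtain ⟨p1, hp1⟩ := hprod v hv δ (by filter_upwards [hk] with a ha; exact ⟨ha.1, ha.2.1⟩)
    (by filter_upwards [hl] with a ha; exact ha.1)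
  obtain ⟨p2, hp2⟩ := hprod v' hv' δ' (by filter_upwards [hk] with a ha; exact ⟨ha.1, ha.2.2⟩)
    (by filter_upwards [hl] with a ha; exact ha.2)
  -- the product of the two other series
  have e0 : ∀ a, w a + v + (v + v') = w a + v' := by
    intro a
    rw [show w a + v + (v + v') = w a + v' + (v + v) by abel, hD, add_zero]
  obtain ⟨q, hq⟩ : ∃ q : ℕ → ℂ, ∀ l ≤ 4 * κ, Tendsto (fun a => PowerSeries.coeff l
      (f (w a + v) * f (w a + v')) / ((-lam (w a) : ℝ) : ℂ) ^ l) 𝓕 (𝓝 (q l)) := by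
    obtain ⟨h, hh⟩ := H.step2 hR hD hvv κ
    have h1 : Tendsto (fun a => w a + v) 𝓕
        (cofinite ⊓ 𝓟 {b | k b = κ ∧ k (b + (v + v')) = κ}) := by
      rw [tendsto_inf, tendsto_principal]
      refine ⟨hwv v, ?_⟩
      filter_upwards [hk] with a ha
      refine ⟨ha.2.1, ?_⟩
      rw [e0]
      exact ha.2.2
    have h2 : ∀ᶠ a in 𝓕, ((-(lam (w a + v) + lam (w a + v')) : ℝ) : ℂ) ≠ 0 := by
      filter_upwards [(H.grow.comp (hwv v)).eventually_gt_atTop 0,
        (H.grow.comp (hwv v')).eventually_gt_atTop 0] with a ha hb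
      have hp : (-(lam (w a + v) + lam (w a + v')) : ℝ) ≠ 0 := by
        have ha' : 0 < lam (w a + v) := ha
        have hb' : 0 < lam (w a + v') := hb
        linarith
      exact_mod_cast hp
    have h3 : Tendsto (fun a => ((-(lam (w a + v) + lam (w a + v')) : ℝ) : ℂ) /
        ((-lam (w a) : ℝ) : ℂ)) 𝓕 (𝓝 2) := by
      refine ratio_tendsto (s := fun a => lam (w a))
        (t := fun a => lam (w a + v) + lam (w a + v')) hlw (δ + δ') ?_
      filter_upwards [hl] with a ha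
      rw [ha.1, ha.2]
      ring
    have h4 := lim_scale (n := 4 * κ) (F := fun a => f (w a + v) * f (w a + v')) hx0 h2 h3
      (g := h) (fun l hl => by
        refine ((hh l hl).comp h1).congr fun a => ?_
        simp only [Function.comp, e0])
    exact ⟨_, h4⟩
  -- the square
  have hS := lim_mul (n := 4 * κ) hx0 hp1 hp2
  obtain ⟨p, hp⟩ := lim_div (n := 4 * κ) (P := fun a => f (w a) * f (w a))
    (Q := fun a => f (w a + v) * f (w a + v')) (q := q)
    (s := fun l => PowerSeries.coeff l (PowerSeries.mk p1 * PowerSeries.mk p2)) hx0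
    (fun a => coeff_zero_mul_one (H.zero _) (H.zero _)) hq (fun l hl => by
      refine (hS l hl).congr fun a => ?_
      rw [show f (w a) * f (w a + v) * (f (w a) * f (w a + v')) =
        f (w a) * f (w a) * (f (w a + v) * f (w a + v')) by ring])
  obtain ⟨g, hg⟩ := lim_sqrt (n := 4 * κ) (F := fun a => f (w a)) hx0 (fun a => H.zero _) hp
  refine ⟨g, ?_, ?_, hg⟩
  · refine tendsto_nhds_unique (hg 0 (Nat.zero_le _)) ?_
    refine tendsto_const_nhds.congr fun a => ?_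
    rw [H.zero, pow_zero, div_one]
  · refine ev_of_tendsto (coeff_inv_zero hR) (x := fun a => ((-lam (w a) : ℝ) : ℂ)) hxn
      (F := fun a => f (w a)) (fun a => H.isType hR (w a)) (s := fun _ => 1) ?_
    intro l hl
    simpa using hg l hl

end W92892cR
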