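import Pool.Agent.W_92892c_h14r.Words

/-!
The shape of the words with given first two letters.
-/

namespace W92892cR

open Finset Filter Topology

variable {D : Type*} [AddCommGroup D] {R : PowerSeries ℂ} {lam : D → ℝ} {f : D → PowerSeries ℂ}
  {k : D → ℕ} {P : ℕ → D} {lam0 : ℝ} {t : ℕ → ℝ} {c : ℝ}

lemma add_ne_zero_of_ne (hD : ∀ d : D, d + d = 0) {a b : D} (h : a ≠ b) : a + b ≠ 0 := by
  intro h1
  apply h
  have h2 : a + (b + b) = a + b + b := by abel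
  rw [hD, add_zero, h1, zero_add] at h2
  exact h2

lemma word_add (hD : ∀ d : D, d + d = 0) (i l m A B q : ℕ) :
    word P i l A B q + (P l + P m) = word P i m A B q := by
  unfold word
  rw [show P i + P l + P (nu A q) + P (nu B q) + (P l + P m) =
    P i + P m + P (nu A q) + P (nu B q) + (P l + P l) by abel, hD, add_zero]

theorem word_shape (H : Rob R lam f k) (hR : PowerSeries.coeff 0 R = 1)
    (hD : ∀ d : D, d + d = 0) (h : Letters lam P lam0 t c) {κ i l m m' : ℕ} (hi : 1 ≤ i)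
    (hl : 1 ≤ l) (hm : 1 ≤ m) (hm' : 1 ≤ m') (hil : i ≠ l) (him : i ≠ m) (him' : i ≠ m')
    (hlm : l ≠ m) (hlm' : l ≠ m') (hmm' : m ≠ m') {𝓤 : Filter ℕ} [𝓤.NeBot]
    (hU : ∀ a, ∀ᶠ i in 𝓤, i ≠ a)
    (kl : ∀ᶠ A in 𝓤, ∀ᶠ B in 𝓤, ∀ᶠ q in 𝓤, k (word P i l A B q) = κ)
    (km : ∀ᶠ A in 𝓤, ∀ᶠ B in 𝓤, ∀ᶠ q in 𝓤, k (word P i m A B q) = κ)
    (km' : ∀ᶠ A in 𝓤, ∀ᶠ B in 𝓤, ∀ᶠ q in 𝓤, k (word P i m' A B q) = κ) :
    ∃ g : ℕ → ℂ, g 0 = 1 ∧ Ev (4 * κ) g ∧ ∀ᶠ A in 𝓤, ∀ᶠ B in 𝓤, ∀ n ≤ 4 * κ,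
      Tendsto (fun q => PowerSeries.coeff n (f (word P i l A B q)) /
        ((-scl c q : ℝ) : ℂ) ^ n) 𝓤 (𝓝 (((A + B + 1 : ℕ) : ℂ) ^ n * g n)) := by
  classical
  set w : ℕ × ℕ × ℕ → D := fun a => word P i l a.1 a.2.1 a.2.2 with hw
  set Q : Set (ℕ × ℕ × ℕ) := {a | (k (word P i l a.1 a.2.1 a.2.2) = κ ∧
    k (word P i m a.1 a.2.1 a.2.2) = κ ∧ k (word P i m' a.1 a.2.1 a.2.2) = κ) ∧ a.1 ≠ a.2.1 ∧
    ∀ j ∈ [i, l, m, m'], nu a.1 a.2.2 ≠ j ∧ nu a.2.1 a.2.2 ≠ j} with hQ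
  set 𝓕 : Filter (ℕ × ℕ × ℕ) := comap w cofinite ⊓ 𝓟 Q with h𝓕
  have hmap : ∀ᶠ A in 𝓤, ∀ᶠ B in 𝓤, Tendsto (fun q => (A, B, q)) 𝓤 𝓕 := by
    filter_upwards [kl, km, km'] with A h1 h2 h3
    filter_upwards [h1, h2, h3, hU A] with B h4 h5 h6 h7
    rw [h𝓕, tendsto_inf, tendsto_comap_iff, tendsto_principal]
    refine ⟨h.word_tendsto hU hi hl hil (Ne.symm h7), ?_⟩
    have h8 : ∀ j : ℕ, ∀ᶠ q in 𝓤, nu A q ≠ j ∧ nu B q ≠ j := fun j =>
      (nu_ne_ev hU A j).and (nu_ne_ev hU B j)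
    filter_upwards [h4, h5, h6, h8 i, h8 l, h8 m, h8 m'] with q e1 e2 e3 e4 e5 e6 e7
    refine ⟨⟨e1, e2, e3⟩, Ne.symm h7, ?_⟩
    intro j hj
    simp only [List.mem_cons, List.not_mem_nil, or_false] at hj
    rcases hj with rfl | rfl | rfl | rfl
    · exact e4
    · exact e5
    · exact e6
    · exact e7
  have hne : 𝓕.NeBot := by
    obtain ⟨A, hA⟩ := hmap.exists
    obtain ⟨B, hB⟩ := hA.exists
    exact hB.neBot
  have hwt : Tendsto w 𝓕 cofinite := tendsto_comap.mono_left inf_le_left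
  have hQev : ∀ᶠ a in 𝓕, a ∈ Q := by
    rw [h𝓕]
    exact mem_inf_of_right (mem_principal_self Q)
  have hPl : ∀ j, 1 ≤ j → l ≠ j → P l + P j ≠ 0 := fun j hj hlj =>
    add_ne_zero_of_ne hD fun h1 => hlj (h.inj _ _ hl hj h1)
  have hlamw : ∀ a ∈ Q, ∀ j ∈ [l, m, m'], 1 ≤ j → i ≠ j →
      lam (word P i j a.1 a.2.1 a.2.2) =
        lam0 + t i + t j + t (nu a.1 a.2.2) + t (nu a.2.1 a.2.2) := by
    intro a ha j hj hj1 hij
    have h1 := ha.2.2 i (by simp)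
    have h2 := ha.2.2 j (List.mem_cons_of_mem _ hj)
    exact h.lam_word hi hj1 hij ha.2.1 h1.1 h2.1 h1.2 h2.2
  obtain ⟨g, hg0, hgE, hg⟩ := H.step3 hR hD κ (v := P l + P m) (v' := P l + P m')
    (hPl m hm hlm) (hPl m' hm' hlm') (by
      rw [show P l + P m + (P l + P m') = (P l + P l) + (P m + P m') by abel, hD, zero_add]
      exact add_ne_zero_of_ne hD fun h1 => hmm' (h.inj _ _ hm hm' h1))
    (w := w) hwt (by
      filter_upwards [hQev] with a ha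
      simp only [hw]
      rw [word_add hD, word_add hD]
      exact ha.1) (t m - t l) (t m' - t l) (by
      filter_upwards [hQev] with a ha
      simp only [hw]
      rw [word_add hD, word_add hD, hlamw a ha m (by simp) hm him,
        hlamw a ha m' (by simp) hm' him', hlamw a ha l (by simp) hl hil]
      constructor <;> ring)
  refine ⟨g, hg0, hgE, ?_⟩
  filter_upwards [hmap] with A hA
  filter_upwards [hA, hU A] with B hB hBA
  have hs := scl_tendsto h.pos hU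
  have hx : ∀ᶠ q in 𝓤, ((-scl c q : ℝ) : ℂ) ≠ 0 := by
    filter_upwards [hs.eventually_gt_atTop 0] with q hq
    have : (-scl c q : ℝ) ≠ 0 := by linarith
    exact_mod_cast this
  have hx' : ∀ᶠ q in 𝓤, ((-lam (word P i l A B q) : ℝ) : ℂ) ≠ 0 := by
    filter_upwards [(h.lam_tendsto hU hi hl hil (Ne.symm hBA)).eventually_gt_atTop 0] with q hq
    have : (-lam (word P i l A B q) : ℝ) ≠ 0 := by linarith
    exact_mod_cast this
  have hρ : Tendsto (fun q => ((-lam (word P i l A B q) : ℝ) : ℂ) / ((-scl c q : ℝ) : ℂ)) 𝓤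
      (𝓝 ((A + B + 1 : ℕ) : ℂ)) := by
    have h1 := (Complex.continuous_ofReal.tendsto _).comp
      (h.ratio_word hU hi hl hil (Ne.symm hBA))
    have h2 : (((A + B + 1 : ℕ) : ℝ) : ℂ) = ((A + B + 1 : ℕ) : ℂ) := by norm_cast
    rw [h2] at h1
    refine h1.congr fun q => ?_
    simp only [Function.comp]
    push_cast
    rw [neg_div_neg_eq]
  have h9 : ∀ n ≤ 4 * κ, Tendsto (fun q => PowerSeries.coeff n (f (word P i l A B q)) /
      ((-lam (word P i l A B q) : ℝ) : ℂ) ^ n) 𝓤 (𝓝 (g n)) := by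
    intro n hn
    have h10 := (hg n hn).comp hB
    exact h10
  clear_value w Q 𝓕
  exact lim_scale (n := 4 * κ) (x := fun q => ((-scl c q : ℝ) : ℂ))
    (x' := fun q => ((-lam (word P i l A B q) : ℝ) : ℂ))
    (F := fun q => f (word P i l A B q)) (g := g) (ρ := ((A + B + 1 : ℕ) : ℂ)) hx hx' hρ h9

end W92892cR
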