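import Pool.Agent.W_92892c_h14r.Steps3

/-!
Words and their sizes.
-/

namespace W92892cR

open Finset Filter Topology

lemma one_le_nu (A q : ℕ) : 1 ≤ nu A q := by
  unfold nu
  exact Nat.mul_pos (Nat.pow_pos (by norm_num)) (by omega)

lemma nu_ne {A B q : ℕ} (h : A ≠ B) : nu A q ≠ nu B q := by
  unfold nu
  intro h1
  have h2 := Nat.eq_of_mul_eq_mul_left (Nat.pow_pos (by norm_num)) h1
  omega

lemma lt_nu (A q : ℕ) : q < nu A q := by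
  unfold nu
  have h1 : q < 2 ^ q := Nat.lt_two_pow_self
  have h2 : 2 ^ q * 1 ≤ 2 ^ q * (2 * A + 1) := Nat.mul_le_mul_left _ (by omega)
  omega

lemma nu_cast (A q : ℕ) : ((nu A q : ℕ) : ℝ) = 2 ^ q * (2 * A + 1) := by
  unfold nu
  push_cast
  ring

variable {D : Type*} [AddCommGroup D]

/-- The letters `P ν`, `ν ≥ 1`, with sizes `t ν` close to `c ν`. -/
structure Letters (lam : D → ℝ) (P : ℕ → D) (lam0 : ℝ) (t : ℕ → ℝ) (c : ℝ) : Prop where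
  pos : 0 < c
  inj : ∀ μ ν, 1 ≤ μ → 1 ≤ ν → P μ = P ν → μ = ν
  sum : ∀ i j l m, 1 ≤ i → 1 ≤ j → 1 ≤ l → 1 ≤ m → i ≠ j → i ≠ l → i ≠ m → j ≠ l → j ≠ m →
    l ≠ m → lam (P i + P j + P l + P m) = lam0 + t i + t j + t l + t m
  lo : ∀ ν, 1 ≤ ν → c * ν ≤ t ν
  hi : ∀ ν, 1 ≤ ν → t ν ≤ c * (ν + 1)

/-- The word with the letters `i`, `l`, `nu A q`, `nu B q`. -/
def word (P : ℕ → D) (i l A B q : ℕ) : D := P i + P l + P (nu A q) + P (nu B q)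

variable {lam : D → ℝ} {P : ℕ → D} {lam0 : ℝ} {t : ℕ → ℝ} {c : ℝ}

theorem Letters.lam_word (h : Letters lam P lam0 t c) {i l A B q : ℕ} (hi : 1 ≤ i) (hl : 1 ≤ l)
    (hil : i ≠ l) (hAB : A ≠ B) (h1 : nu A q ≠ i) (h2 : nu A q ≠ l) (h3 : nu B q ≠ i)
    (h4 : nu B q ≠ l) :
    lam (word P i l A B q) = lam0 + t i + t l + t (nu A q) + t (nu B q) :=
  h.sum _ _ _ _ hi hl (one_le_nu _ _) (one_le_nu _ _) hil h1.symm h3.symm h2.symm h4.symm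
    (nu_ne hAB)

variable {𝓤 : Filter ℕ}

theorem tendsto_atTop_of_ne (hU : ∀ a, ∀ᶠ i in 𝓤, i ≠ a) : 𝓤 ≤ atTop := by
  rw [← Nat.cofinite_eq_atTop, Filter.le_cofinite_iff_eventually_ne]
  exact hU

theorem nu_ne_ev (hU : ∀ a, ∀ᶠ i in 𝓤, i ≠ a) (A a : ℕ) : ∀ᶠ q in 𝓤, nu A q ≠ a := by
  have h1 : ∀ᶠ q in 𝓤, a ≤ q := (tendsto_atTop_of_ne hU) (eventually_ge_atTop a)
  filter_upwards [h1] with q hq h
  have := lt_nu A q
  omega

/-- The scale. -/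
noncomputable def scl (c : ℝ) (q : ℕ) : ℝ := c * 2 ^ (q + 1)

theorem scl_tendsto (hc : 0 < c) (hU : ∀ a, ∀ᶠ i in 𝓤, i ≠ a) : Tendsto (scl c) 𝓤 atTop := by
  have h1 : Tendsto (fun q : ℕ => (2 : ℝ) ^ (q + 1)) atTop atTop :=
    (tendsto_pow_atTop_atTop_of_one_lt (by norm_num)).comp (tendsto_add_atTop_nat 1)
  have h2 : Tendsto (fun q : ℕ => c * (2 : ℝ) ^ (q + 1)) atTop atTop :=
    h1.const_mul_atTop hc
  exact h2.mono_left (tendsto_atTop_of_ne hU)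

theorem Letters.ratio_word (h : Letters lam P lam0 t c) (hU : ∀ a, ∀ᶠ i in 𝓤, i ≠ a)
    {i l A B : ℕ} (hi : 1 ≤ i) (hl : 1 ≤ l) (hil : i ≠ l) (hAB : A ≠ B) :
    Tendsto (fun q => lam (word P i l A B q) / scl c q) 𝓤 (𝓝 ((A + B + 1 : ℕ) : ℝ)) := by
  have hs := scl_tendsto h.pos hU
  have h1 : Tendsto (fun q => (|lam0 + t i + t l| + 2 * c) * (scl c q)⁻¹) 𝓤 (𝓝 0) := by
    have h2 := hs.inv_tendsto_atTop.const_mul (|lam0 + t i + t l| + 2 * c)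
    rw [mul_zero] at h2
    exact h2
  rw [tendsto_iff_norm_sub_tendsto_zero]
  refine squeeze_zero' (Eventually.of_forall fun q => norm_nonneg _) ?_ h1
  filter_upwards [nu_ne_ev hU A i, nu_ne_ev hU A l, nu_ne_ev hU B i, nu_ne_ev hU B l,
    hs.eventually_gt_atTop 0] with q h2 h3 h4 h5 h6
  rw [h.lam_word hi hl hil hAB h2 h3 h4 h5]
  have hA1 := h.lo _ (one_le_nu A q)
  have hA2 := h.hi _ (one_le_nu A q)
  have hB1 := h.lo _ (one_le_nu B q)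
  have hB2 := h.hi _ (one_le_nu B q)
  rw [nu_cast] at hA1 hA2 hB1 hB2
  have hc := h.pos
  have e1 : (lam0 + t i + t l + t (nu A q) + t (nu B q)) / scl c q - ((A + B + 1 : ℕ) : ℝ) =
      (lam0 + t i + t l + t (nu A q) + t (nu B q) - scl c q * ((A + B + 1 : ℕ) : ℝ)) *
        (scl c q)⁻¹ := by
    field_simp
  rw [e1, norm_mul, norm_inv, Real.norm_eq_abs, Real.norm_eq_abs, abs_of_pos h6]
  refine mul_le_mul_of_nonneg_right ?_ (by positivity)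
  have e2 : scl c q * ((A + B + 1 : ℕ) : ℝ) =
      c * (2 ^ q * (2 * A + 1)) + c * (2 ^ q * (2 * B + 1)) := by
    unfold scl
    push_cast
    ring
  rw [e2]
  have h7 := le_abs_self (lam0 + t i + t l)
  have h8 := neg_abs_le (lam0 + t i + t l)
  rw [abs_le]
  constructor
  · nlinarith
  · nlinarith

theorem Letters.lam_tendsto (h : Letters lam P lam0 t c) (hU : ∀ a, ∀ᶠ i in 𝓤, i ≠ a)
    {i l A B : ℕ} (hi : 1 ≤ i) (hl : 1 ≤ l) (hil : i ≠ l) (hAB : A ≠ B) :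
    Tendsto (fun q => lam (word P i l A B q)) 𝓤 atTop := by
  have h1 := (h.ratio_word hU hi hl hil hAB)
  have hs := scl_tendsto h.pos hU
  have h2 : Tendsto (fun q => lam (word P i l A B q) / scl c q * scl c q) 𝓤 atTop :=
    h1.pos_mul_atTop (by positivity) hs
  refine h2.congr' ?_
  filter_upwards [hs.eventually_gt_atTop 0] with q hq
  field_simp

theorem Letters.word_tendsto (h : Letters lam P lam0 t c) (hU : ∀ a, ∀ᶠ i in 𝓤, i ≠ a)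
    {i l A B : ℕ} (hi : 1 ≤ i) (hl : 1 ≤ l) (hil : i ≠ l) (hAB : A ≠ B) :
    Tendsto (fun q => word P i l A B q) 𝓤 cofinite := by
  rw [Tendsto, Filter.le_cofinite_iff_eventually_ne]
  intro d
  rw [eventually_map]
  filter_upwards [(h.lam_tendsto hU hi hl hil hAB).eventually_gt_atTop (lam d)] with q hq h1
  rw [h1] at hq
  exact lt_irrefl _ hq

/-- A limit of quotients `o(size)`. -/
theorem lim_zero {κ : ℕ} (hκ : 1 ≤ κ) [𝓤.NeBot] {x N : ℕ → ℂ} {a1 a2 a3 s : ℕ → ℝ} {L : ℂ}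
    {A1 A2 A3 S : ℝ} (hx : Tendsto (fun q => ‖x q‖) 𝓤 atTop)
    (hN : Tendsto (fun q => N q / x q ^ (4 * κ)) 𝓤 (𝓝 L))
    (h1 : Tendsto (fun q => a1 q / ‖x q‖ ^ κ) 𝓤 (𝓝 A1))
    (h2 : Tendsto (fun q => a2 q / ‖x q‖ ^ κ) 𝓤 (𝓝 A2))
    (h3 : Tendsto (fun q => a3 q / ‖x q‖ ^ κ) 𝓤 (𝓝 A3))
    (hs : Tendsto (fun q => s q / ‖x q‖) 𝓤 (𝓝 S))
    (ha : ∀ q, 0 ≤ a1 q ∧ 0 ≤ a2 q ∧ 0 ≤ a3 q ∧ 0 ≤ s q)
    (hb : ∀ ε : ℝ, 0 < ε → ∃ B : ℝ, ∀ᶠ q in 𝓤, ‖N q‖ ≤ (ε * s q + B) * (a1 q * a2 q * a3 q)) :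
    L = 0 := by
  have key : ∀ ε : ℝ, 0 < ε → ‖L‖ ≤ ε * S * (A1 * A2 * A3) := by
    intro ε hε
    obtain ⟨B, hB⟩ := hb ε hε
    have h4 : Tendsto (fun q => (ε * (s q / ‖x q‖) + |B| * ‖x q‖⁻¹) *
        (a1 q / ‖x q‖ ^ κ * (a2 q / ‖x q‖ ^ κ) * (a3 q / ‖x q‖ ^ κ))) 𝓤
        (𝓝 ((ε * S + |B| * 0) * (A1 * A2 * A3))) :=
      ((hs.const_mul ε).add (hx.inv_tendsto_atTop.const_mul |B|)).mul ((h1.mul h2).mul h3)
    rw [mul_zero, add_zero] at h4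
    refine le_of_tendsto_of_tendsto hN.norm h4 ?_
    filter_upwards [hB, hx.eventually_ge_atTop 1] with q hq hq1
    obtain ⟨ha1, ha2, ha3, hs0⟩ := ha q
    have hx0 : 0 < ‖x q‖ := by linarith
    rw [norm_div, norm_pow, div_le_iff₀ (by positivity)]
    have e1 : (ε * (s q / ‖x q‖) + |B| * ‖x q‖⁻¹) *
        (a1 q / ‖x q‖ ^ κ * (a2 q / ‖x q‖ ^ κ) * (a3 q / ‖x q‖ ^ κ)) * ‖x q‖ ^ (4 * κ) =
        (ε * s q + |B|) * (a1 q * a2 q * a3 q) * (‖x q‖ ^ κ / ‖x q‖) := by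
      have e2 : ‖x q‖ ^ (4 * κ) = ‖x q‖ ^ κ * ‖x q‖ ^ κ * ‖x q‖ ^ κ * ‖x q‖ ^ κ := by
        rw [← pow_add, ← pow_add, ← pow_add]
        congr 1
        ring
      rw [e2]
      field_simp
    rw [e1]
    have h5 : 1 ≤ ‖x q‖ ^ κ / ‖x q‖ := by
      rw [le_div_iff₀ hx0, one_mul]
      calc ‖x q‖ = ‖x q‖ ^ 1 := (pow_one _).symm
        _ ≤ ‖x q‖ ^ κ := pow_le_pow_right₀ hq1 hκ
    have h6 : 0 ≤ (ε * s q + |B|) * (a1 q * a2 q * a3 q) := by positivity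
    calc ‖N q‖ ≤ (ε * s q + B) * (a1 q * a2 q * a3 q) := hq
      _ ≤ (ε * s q + |B|) * (a1 q * a2 q * a3 q) := by
          gcongr
          exact le_abs_self B
      _ ≤ _ := le_mul_of_one_le_right h6 h5
  rw [← norm_le_zero_iff]
  by_contra hcon
  push Not at hcon
  set K : ℝ := |S * (A1 * A2 * A3)| + 1 with hK
  have hK0 : 0 < K := by positivity
  have h4 := key (‖L‖ / (2 * K)) (by positivity)
  have h5 : S * (A1 * A2 * A3) ≤ K := by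
    have := le_abs_self (S * (A1 * A2 * A3))
    linarith
  have h6 : ‖L‖ / (2 * K) * S * (A1 * A2 * A3) ≤ ‖L‖ / (2 * K) * K := by
    rw [mul_assoc]
    exact mul_le_mul_of_nonneg_left h5 (by positivity)
  have h7 : ‖L‖ / (2 * K) * K = ‖L‖ / 2 := by
    field_simp
  linarith

end W92892cR
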